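import Pool.Agent.Q267.CDE.UU

/-!
# The weights `C(m,k) C(m+k,k)` at `m + p` modulo `p²`
-/

namespace Pool.Agent.Q261.SC

open Finset Pool.Agent.Q267 Pool.Agent.Q267.Seven Pool.Agent.Q267.CDE

variable (p : ℕ) [hp : Fact p.Prime] {m : ℕ}

theorem asc (c n : ℕ) (hn : n < p) :
    (((c * p + 1).ascFactorial n : ℕ) : R p) = (n.factorial : R p) * (1 + c * p * hR p n) := by
  induction n with
  | zero => simp [hR]
  | succ n ih =>
    have ih := ih (by omega)
    have hu := unit_cast p (n + 1) (by omega) hn
    have hH : hR p (n + 1) = hR p n + ((n + 1 : ℕ) : R p)⁻¹ := by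
      unfold hR
      rw [sum_range_succ]
    rw [Nat.ascFactorial_succ, Nat.factorial_succ, Nat.cast_mul, ih, hH]
    have hpp := CDE.p_sq p
    push_cast at hu ⊢
    set P : R p := (p : R p)
    set i : R p := ((n : R p) + 1)⁻¹
    linear_combination ((c : R p) ^ 2 * (n.factorial : R p) * hR p n) * hpp
      - (n.factorial : R p) * c * P * hu

theorem hR_pred (h3 : 3 < p) : (p : R p) * hR p (p - 1) = 0 := by
  have h : (p : R p) * (hR p (p - 1)) = p * 0 := by
    apply CDE.p_mul_eq
    have h1 : CDE.red p (hR p (p - 1)) = Pool.Agent.Q267.Landen.Hh (ZMod p) (p - 1) :=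
      Seven.red_hR p (p - 1) (by omega)
    rw [h1, map_zero]
    have h2 : Pool.Agent.Q267.Landen.Hh (ZMod p) (p - 1) = -Pool.Agent.Q267.Landen.Hh (ZMod p) (p - 1) := by
      conv_lhs => unfold Pool.Agent.Q267.Landen.Hh
      rw [← sum_range_reflect]
      unfold Pool.Agent.Q267.Landen.Hh
      rw [← sum_neg_distrib]
      refine sum_congr rfl fun j hj => ?_
      rw [mem_range] at hj
      have e : ((p - 1 - 1 - j + 1 : ℕ) : ZMod p) = -((j + 1 : ℕ) : ZMod p) := by
        have e1 : (p - 1 - 1 - j + 1) + (j + 1) = p := by omega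
        have e2 := congrArg (Nat.cast : ℕ → ZMod p) e1
        have hp0 : ((p : ℕ) : ZMod p) = 0 := CharP.cast_eq_zero _ p
        rw [Nat.cast_add (p - 1 - 1 - j + 1) (j + 1), hp0] at e2
        linear_combination e2
      rw [e, inv_neg]
    have h4 : (2 : ZMod p) ≠ 0 := by
      have := cast_ne p 2 (by omega) (by omega)
      exact_mod_cast this
    apply mul_left_cancel₀ h4
    linear_combination h2
  rw [h, mul_zero]

theorem choose_two_p (h3 : 3 < p) : (((2 * p).choose p : ℕ) : R p) = 2 := by
  have h1 := asc p 1 (p - 1) (by omega)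
  rw [one_mul, Nat.cast_one, one_mul, hR_pred p h3, add_zero, mul_one] at h1
  have hfu : IsUnit (((p - 1).factorial : ℕ) : R p) := by
    apply isUnit_of_red
    rw [red_nat, Ne, ZMod.natCast_eq_zero_iff, hp.out.dvd_factorial]
    omega
  apply hfu.mul_left_cancel
  have h2 : (p - 1).factorial * (2 * p).choose p = 2 * (p + 1).ascFactorial (p - 1) := by
    have e1 : (2 * p).choose p * p.factorial * p.factorial = (2 * p).factorial := by
      have := Nat.choose_mul_factorial_mul_factorial (show p ≤ 2 * p by omega)
      rwa [show 2 * p - p = p by omega] at this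
    have e2 : p.factorial * (p + 1).ascFactorial p = (2 * p).factorial := by
      rw [Nat.factorial_mul_ascFactorial, two_mul]
    have e3 : (p + 1).ascFactorial p = (2 * p) * (p + 1).ascFactorial (p - 1) := by
      have h9 := @Nat.ascFactorial_succ (p + 1) (p - 1)
      rw [Nat.succ_eq_add_one, show p - 1 + 1 = p by omega, show p + 1 + (p - 1) = 2 * p by omega] at h9
      exact h9
    have e4 : p.factorial = p * (p - 1).factorial := by
      conv_lhs => rw [show p = (p - 1) + 1 by omega]
      rw [Nat.factorial_succ]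
      congr 1
      omega
    have hpos := Nat.factorial_pos p
    have hpp := hp.out.pos
    apply Nat.eq_of_mul_eq_mul_left hpp
    apply Nat.eq_of_mul_eq_mul_left hpos
    calc p.factorial * (p * ((p - 1).factorial * (2 * p).choose p)) =
        (2 * p).choose p * p.factorial * (p * (p - 1).factorial) := by ring
      _ = (2 * p).factorial := by rw [← e4, e1]
      _ = p.factorial * ((2 * p) * (p + 1).ascFactorial (p - 1)) := by rw [← e2, e3]
      _ = _ := by ring
  have h3 := congrArg (Nat.cast : ℕ → R p) h2
  rw [Nat.cast_mul, Nat.cast_mul, h1] at h3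
  rw [h3]
  push_cast
  ring

theorem mm_eq (hpm : p = 2 * m + 1) :
    ((m + p : ℕ) : R p) * (((m + p : ℕ) : R p) + 1) = (m : R p) * ((m : R p) + 1) := by
  have hP : (p : R p) = 2 * m + 1 := by
    have := congrArg (Nat.cast : ℕ → R p) hpm
    push_cast at this
    exact this
  have hpp := CDE.p_sq p
  push_cast
  linear_combination 2 * hpp - (p : R p) * hP

/-- terms below `p` -/
theorem dl_low (hpm : p = 2 * m + 1) (k : ℕ) (hk : k < p) :
    (dl (m + p) k : R p) = (dl m k : R p) := by
  induction k with
  | zero => simp [dl]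
  | succ k ih =>
    have ih := ih (by omega)
    have h1 := congrArg (Int.cast : ℤ → R p) (dl_succ (m + p) k)
    have h2 := congrArg (Int.cast : ℤ → R p) (dl_succ m k)
    have hu := isUnit_nat p (k + 1) (by omega) hk
    have hm := mm_eq p hpm
    apply (hu.pow 2).mul_right_cancel
    push_cast at h1 h2 hm ⊢
    rw [h1, h2, ih]
    linear_combination (-(dl m k : R p)) * hm

theorem choose_prod (M k : ℕ) (hk : k ≤ M) :
    M.choose k * (M + k).choose k * ((M - k).factorial * (k.factorial * k.factorial)) =
      (M + k).factorial := by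
  have h1 := Nat.choose_mul_factorial_mul_factorial hk
  have h2 := Nat.choose_mul_factorial_mul_factorial (show k ≤ M + k by omega)
  rw [Nat.add_sub_cancel] at h2
  calc _ = (M + k).choose k * k.factorial * (M.choose k * k.factorial * (M - k).factorial) := by ring
    _ = _ := by rw [h1, h2]

/-- terms from `p` on -/
theorem dl_high (hpm : p = 2 * m + 1) (h3 : 3 < p) (j : ℕ) (hj : j ≤ m) :
    (dl (m + p) (p + j) : R p) =
      -2 * (dl m j : R p) * (1 + 2 * p * (hR p (m + j) - hR p j)) := by
  have e1 := choose_prod (m + p) (p + j) (by omega)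
  have e2 := choose_prod m j hj
  have e3 : m + p - (p + j) = m - j := by omega
  have e4 : m + p + (p + j) = 2 * p + (m + j) := by omega
  rw [e3, e4, ← Nat.factorial_mul_ascFactorial p j, ← Nat.factorial_mul_ascFactorial (2 * p) (m + j)] at e1
  have e5 : (2 * p).factorial = (2 * p).choose p * (p.factorial * p.factorial) := by
    have := Nat.choose_mul_factorial_mul_factorial (show p ≤ 2 * p by omega)
    rw [show 2 * p - p = p by omega] at this
    rw [← this]
    ring
  rw [e5] at e1
  have hpos : 0 < p.factorial * p.factorial := Nat.mul_pos (Nat.factorial_pos p) (Nat.factorial_pos p)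
  have e6 : (m + p).choose (p + j) * (2 * p + (m + j)).choose (p + j) * ((m - j).factorial *
      ((p + 1).ascFactorial j * (p + 1).ascFactorial j)) =
      (2 * p).choose p * (2 * p + 1).ascFactorial (m + j) := by
    apply Nat.eq_of_mul_eq_mul_left hpos
    linear_combination e1
  have e7 := congrArg (Nat.cast : ℕ → R p) e6
  have e8 := congrArg (Nat.cast : ℕ → R p) e2
  have a1 := asc p 1 j (by omega)
  have a2 := asc p 2 (m + j) (by omega)
  rw [one_mul] at a1
  rw [Nat.cast_mul, Nat.cast_mul, Nat.cast_mul, Nat.cast_mul, Nat.cast_mul, choose_two_p p h3, a1, a2,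
    ← e8] at e7
  have f1 : IsUnit ((m - j).factorial : R p) := by
    apply isUnit_of_red
    rw [red_nat, Ne, ZMod.natCast_eq_zero_iff, hp.out.dvd_factorial]
    omega
  have f2 : IsUnit (j.factorial : R p) := by
    apply isUnit_of_red
    rw [red_nat, Ne, ZMod.natCast_eq_zero_iff, hp.out.dvd_factorial]
    omega
  have hpp := CDE.p_sq p
  set A : R p := (((m + p).choose (p + j) : ℕ) : R p) * (((2 * p + (m + j)).choose (p + j) : ℕ) : R p)
    with hA
  set B : R p := ((m.choose j : ℕ) : R p) * (((m + j).choose j : ℕ) : R p) with hB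
  have key : A * (1 + 2 * p * hR p j) = 2 * B * (1 + 2 * p * hR p (m + j)) := by
    apply (f1.mul (f2.mul f2)).mul_left_cancel
    push_cast at e7
    linear_combination e7 + (A * (m - j).factorial * (j.factorial * j.factorial) * (-(hR p j) ^ 2)) * hpp
  have key2 : A = 2 * B * (1 + 2 * p * (hR p (m + j) - hR p j)) := by
    linear_combination (1 - 2 * p * hR p j) * key + (4 * A * (hR p j) ^ 2
      - 8 * B * hR p j * hR p (m + j)) * hpp
  have hs : ((-1 : R p)) ^ (p + j) = - (-1) ^ j := by
    have hodd : Odd p := ⟨m, hpm⟩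
    rw [pow_add, hodd.neg_one_pow]
    ring
  unfold dl
  push_cast
  rw [show m + p + (p + j) = 2 * p + (m + j) by omega, hs]
  have : -(-1 : R p) ^ j * (((m + p).choose (p + j) : ℕ) : R p) *
      (((2 * p + (m + j)).choose (p + j) : ℕ) : R p) = -(-1) ^ j * A := by rw [hA]; ring
  rw [this, key2, hB]
  ring

end Pool.Agent.Q261.SC
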