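import Pool.Agent.Q261.SC.Tri
import Pool.Agent.Q261.SC.Shift

/-!
# Linear extrapolation in the parameter modulo `p²`
-/

namespace Pool.Agent.Q261.SC

open Finset Polynomial Pool.Agent.Q267 Pool.Agent.Q267.Seven Pool.Agent.Q267.CDE

section

variable (p : ℕ) [hp : Fact p.Prime] {m : ℕ}

/-- inverse of `k!²` -/
noncomputable def ikf (k : ℕ) : R p := ((k.factorial : R p) ^ 2)⁻¹

theorem fact_unit (k : ℕ) (hk : k < p) : IsUnit (k.factorial : R p) := by
  apply isUnit_of_red
  rw [red_nat, Ne, ZMod.natCast_eq_zero_iff, hp.out.dvd_factorial]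
  omega

theorem ikf_mul (k : ℕ) (hk : k < p) : (k.factorial : R p) ^ 2 * ikf p k = 1 :=
  mul_inv_R p ((fact_unit p k hk).pow 2)

/-- the interpolating polynomial -/
noncomputable def FF (w : ℕ → R p) (z : R p) : (R p)[X] :=
  ∑ k ∈ range p, C (w k * ikf p k * z ^ k) * descPochhammer (R p) (2 * k)

theorem FF_nat (w : ℕ → R p) (z : R p) (n : ℕ) :
    (FF p w z).eval (n : R p) =
      ∑ k ∈ range p, w k * (((n.choose (2 * k) * (2 * k).choose k : ℕ) : R p) * z ^ k) := by
  unfold FF
  rw [eval_finset_sum]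
  refine sum_congr rfl fun k hk => ?_
  rw [mem_range] at hk
  rw [eval_mul, eval_C, descPochhammer_eval_eq_descFactorial, Nat.descFactorial_eq_factorial_mul_choose]
  have h1 := Nat.choose_mul_factorial_mul_factorial (show k ≤ 2 * k by omega)
  rw [show 2 * k - k = k by omega] at h1
  have h2 := ikf_mul p k hk
  rw [← h1]
  push_cast
  linear_combination (w k * z ^ k * ((2 * k).choose k : R p) * (n.choose (2 * k) : R p)) * h2

omit hp in
theorem desc_half (x : R p) (hx : 2 * x = -1) (n : ℕ) :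
    (4 : R p) ^ n * (descPochhammer (R p) n).eval x = (-1) ^ n * ((n.centralBinom * n.factorial : ℕ) : R p) := by
  induction n with
  | zero => simp
  | succ n ih =>
    have h1 := Nat.succ_mul_centralBinom_succ n
    have h1' := congrArg (Nat.cast : ℕ → R p) h1
    rw [descPochhammer_succ_right, eval_mul, eval_sub, eval_X, eval_natCast, Nat.factorial_succ]
    push_cast at ih h1' ⊢
    rw [pow_succ (4 : R p), pow_succ (-1 : R p)]
    linear_combination (4 * (x - n)) * ih + ((-1) ^ n * (n.factorial : R p)) * h1' +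
      (2 * (-1) ^ n * (n.centralBinom : R p) * (n.factorial : R p)) * hx

theorem FF_half (w : ℕ → R p) (z J : R p) (hJ : 16 * J = 1) (x : R p) (hx : 2 * x = -1) :
    (FF p w z).eval x =
      ∑ k ∈ range p, w k * ((((4 * k).choose (2 * k) * (2 * k).choose k : ℕ) : R p) * (z * J) ^ k) := by
  unfold FF
  rw [eval_finset_sum]
  refine sum_congr rfl fun k hk => ?_
  rw [mem_range] at hk
  rw [eval_mul, eval_C]
  have h0 := desc_half p x hx (2 * k)
  rw [Nat.centralBinom, show 2 * (2 * k) = 4 * k by ring, pow_mul, pow_mul] at h0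
  have h1 := Nat.choose_mul_factorial_mul_factorial (show k ≤ 2 * k by omega)
  rw [show 2 * k - k = k by omega] at h1
  have h2 := ikf_mul p k hk
  rw [← h1] at h0
  have h16 : (16 : R p) ^ k * J ^ k = 1 := by rw [← mul_pow, hJ, one_pow]
  have e4 : ((4 : R p) ^ 2) ^ k = 16 ^ k := by norm_num
  have e5 : (((-1 : R p)) ^ 2) ^ k = 1 := by norm_num
  rw [e4, e5] at h0
  push_cast at h0 ⊢
  rw [mul_pow]
  set Y := (descPochhammer (R p) (2 * k)).eval x
  linear_combination (-(w k) * ikf p k * z ^ k * Y) * h16 + (w k * ikf p k * z ^ k * J ^ k) * h0 +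
    (w k * z ^ k * J ^ k * ((4 * k).choose (2 * k) : R p) * ((2 * k).choose k : R p)) * h2

/-- **linear extrapolation** -/
theorem extrap (hpm : p = 2 * m + 1) (w : ℕ → R p) (z J : R p) (hJ : 16 * J = 1) :
    2 * ∑ k ∈ range p, w k * ((((4 * k).choose (2 * k) * (2 * k).choose k : ℕ) : R p) * (z * J) ^ k) =
      3 * ∑ k ∈ range p, w k * (((m.choose (2 * k) * (2 * k).choose k : ℕ) : R p) * z ^ k) -
      ∑ k ∈ range p, w k * ((((m + p).choose (2 * k) * (2 * k).choose k : ℕ) : R p) * z ^ k) := by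
  have h8 : 2 * (8 * J) = 1 := by linear_combination hJ
  set x : R p := -(8 * J) with hxd
  have hx : 2 * x = -1 := by rw [hxd]; linear_combination -h8
  have hP : (p : R p) = 2 * m + 1 := by
    have := congrArg (Nat.cast : ℕ → R p) hpm
    push_cast at this
    exact this
  have hpp := CDE.p_sq p
  have e1 : (m : R p) = x + p * (8 * J) := by
    rw [hxd]
    linear_combination (-(m : R p)) * h8 - 8 * J * hP
  have e2 : ((m + p : ℕ) : R p) = x + p * (3 * (8 * J)) := by
    push_cast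
    rw [hxd]
    linear_combination (-(m : R p)) * h8 - 8 * J * hP - (p : R p) * h8
  have s1 : ((p : R p) * (8 * J)) ^ 2 = 0 := by linear_combination (8 * J) ^ 2 * hpp
  have s2 : ((p : R p) * (3 * (8 * J))) ^ 2 = 0 := by linear_combination (3 * (8 * J)) ^ 2 * hpp
  rw [← FF_half p w z J hJ x hx, ← FF_nat p w z m, ← FF_nat p w z (m + p), e1, e2,
    Polynomial.eval_add_of_sq_eq_zero _ _ _ s1, Polynomial.eval_add_of_sq_eq_zero _ _ _ s2]
  ring

omit hp in
theorem dl_nat (M k : ℕ) (a : R p) :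
    ((M.choose k * (M + k).choose k : ℕ) : R p) * a ^ k = (dl M k : R p) * (-a) ^ k := by
  unfold dl
  have h : (-a) ^ k = (-1) ^ k * a ^ k := neg_pow _ _
  have h2 : ((-1 : R p)) ^ k * (-1) ^ k = 1 := by rw [← mul_pow]; norm_num
  rw [h]
  push_cast
  linear_combination (-((M.choose k : R p) * ((M + k).choose k : R p) * a ^ k)) * h2

/-- the sum for the index `m + p` -/
theorem sum_shift (hpm : p = 2 * m + 1) (h3 : 3 < p) (w : ℕ → R p) (a : R p) :
    ∑ k ∈ range (m + p + 1), w k * (((((m + p).choose k * (m + p + k).choose k : ℕ) : R p)) * a ^ k) =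
      ∑ k ∈ range (m + 1), w k * ((dl m k : R p) * (-a) ^ k) +
      2 * a ^ p * ∑ k ∈ range (m + 1), w (p + k) * ((dl m k : R p) * (-a) ^ k *
        (1 + 2 * p * (hR p (m + k) - hR p k))) := by
  have e0 : m + p + 1 = p + (m + 1) := by ring
  rw [e0, sum_range_add]
  congr 1
  · have h1 : ∑ k ∈ range p, w k * (((((m + p).choose k * (m + p + k).choose k : ℕ) : R p)) * a ^ k) =
        ∑ k ∈ range p, w k * ((dl m k : R p) * (-a) ^ k) := by
      refine sum_congr rfl fun k hk => ?_
      rw [mem_range] at hk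
      rw [dl_nat p (m + p) k a, dl_low p hpm k hk]
    rw [h1, ← sum_range_add_sum_Ico _ (show m + 1 ≤ p by omega)]
    have h2 : ∑ k ∈ Ico (m + 1) p, w k * ((dl m k : R p) * (-a) ^ k) = 0 := by
      refine sum_eq_zero fun k hk => ?_
      rw [mem_Ico] at hk
      unfold dl
      rw [Nat.choose_eq_zero_of_lt (by omega)]
      simp
    rw [h2, add_zero]
  · rw [mul_sum]
    refine sum_congr rfl fun k hk => ?_
    rw [mem_range] at hk
    rw [dl_nat p (m + p) (p + k) a, dl_high p hpm h3 k (by omega)]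
    have hodd : Odd p := ⟨m, hpm⟩
    rw [pow_add (-a) p k, hodd.neg_pow]
    ring

omit hp in
/-- `q^M` times the truncated sum -/
theorem trunc (M : ℕ) (hM : M < 2 * p) (w : ℕ → R p) (a z q : R p) (hq : q = 2 * a + 1)
    (hz : z * q ^ 2 = a * (a + 1)) :
    q ^ M * ∑ k ∈ range p, w k * (((M.choose (2 * k) * (2 * k).choose k : ℕ) : R p) * z ^ k) =
      ∑ k ∈ range (M + 1), w k * (((M.choose (2 * k) * (2 * k).choose k : ℕ) : R p) *
        ((a * (a + 1)) ^ k * (2 * a + 1) ^ (M - 2 * k))) := by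
  have hA : ∀ n, M < 2 * n → ∑ k ∈ range n, q ^ M * (w k * (((M.choose (2 * k) * (2 * k).choose k : ℕ) : R p) *
      z ^ k)) = ∑ k ∈ (range n).filter (fun k => 2 * k ≤ M),
        w k * (((M.choose (2 * k) * (2 * k).choose k : ℕ) : R p) *
        ((a * (a + 1)) ^ k * (2 * a + 1) ^ (M - 2 * k))) := by
    intro n _
    rw [sum_filter]
    refine sum_congr rfl fun k _ => ?_
    split_ifs with h
    · have e1 : q ^ M = (q ^ 2) ^ k * q ^ (M - 2 * k) := by
        rw [← pow_mul, ← pow_add]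
        congr 1
        omega
      rw [e1, ← hz, ← hq, mul_pow]
      ring
    · rw [Nat.choose_eq_zero_of_lt (by omega)]
      simp
  have hB : ∑ k ∈ range (M + 1), w k * (((M.choose (2 * k) * (2 * k).choose k : ℕ) : R p) *
        ((a * (a + 1)) ^ k * (2 * a + 1) ^ (M - 2 * k))) =
      ∑ k ∈ (range (M + 1)).filter (fun k => 2 * k ≤ M),
        w k * (((M.choose (2 * k) * (2 * k).choose k : ℕ) : R p) *
        ((a * (a + 1)) ^ k * (2 * a + 1) ^ (M - 2 * k))) := by
    rw [sum_filter]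
    refine sum_congr rfl fun k _ => ?_
    split_ifs with h
    · rfl
    · rw [Nat.choose_eq_zero_of_lt (by omega)]
      simp
  rw [mul_sum, hA p hM, hB]
  congr 1
  ext k
  simp only [mem_filter, mem_range]
  omega

/-- `∑ dl m k (-a)^k` -/
noncomputable def D0 (m : ℕ) (a : R p) : R p := ∑ k ∈ range (m + 1), (dl m k : R p) * (-a) ^ k

/-- `∑ k dl m k (-a)^k` -/
noncomputable def E0 (m : ℕ) (a : R p) : R p :=
  ∑ k ∈ range (m + 1), (k : R p) * ((dl m k : R p) * (-a) ^ k)

/-- `∑ dl m k (-a)^k (H_{m+k} - H_k)` -/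
noncomputable def T0 (m : ℕ) (a : R p) : R p :=
  ∑ k ∈ range (m + 1), (dl m k : R p) * (-a) ^ k * (hR p (m + k) - hR p k)

/-- `∑ k dl m k (-a)^k (H_{m+k} - H_k)` -/
noncomputable def U0 (m : ℕ) (a : R p) : R p :=
  ∑ k ∈ range (m + 1), (k : R p) * ((dl m k : R p) * (-a) ^ k * (hR p (m + k) - hR p k))

omit hp in
theorem low_sum (a : R p) : ∑ k ∈ range (m + 1), ((m.choose k * (m + k).choose k : ℕ) : R p) * a ^ k =
    D0 p m a := by
  unfold D0
  exact sum_congr rfl fun k _ => dl_nat p m k a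

omit hp in
theorem low_sum1 (a : R p) : ∑ k ∈ range (m + 1), (k : R p) *
    (((m.choose k * (m + k).choose k : ℕ) : R p) * a ^ k) = E0 p m a := by
  unfold E0
  refine sum_congr rfl fun k _ => ?_
  rw [dl_nat p m k a]

theorem high_sum (hpm : p = 2 * m + 1) (h3 : 3 < p) (a : R p) :
    ∑ k ∈ range (m + p + 1), (((m + p).choose k * (m + p + k).choose k : ℕ) : R p) * a ^ k =
      D0 p m a + 2 * a ^ p * (D0 p m a + 2 * p * T0 p m a) := by
  have h := sum_shift p hpm h3 (fun _ => 1) a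
  simp only [one_mul] at h
  rw [h]
  unfold D0 T0
  congr 2
  rw [mul_sum, ← sum_add_distrib]
  exact sum_congr rfl fun k _ => by ring

theorem high_sum1 (hpm : p = 2 * m + 1) (h3 : 3 < p) (a : R p) :
    ∑ k ∈ range (m + p + 1), (k : R p) * ((((m + p).choose k * (m + p + k).choose k : ℕ) : R p) * a ^ k) =
      E0 p m a + 2 * a ^ p * (E0 p m a + p * D0 p m a + 2 * p * U0 p m a) := by
  have h := sum_shift p hpm h3 (fun k => (k : R p)) a
  rw [h]
  unfold D0 E0 U0
  congr 2
  rw [mul_sum, mul_sum, ← sum_add_distrib, ← sum_add_distrib]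
  refine sum_congr rfl fun k _ => ?_
  have hpp := CDE.p_sq p
  push_cast
  linear_combination (2 * (dl m k : R p) * (-a) ^ k * (hR p (m + k) - hR p k)) * hpp

/-- **main formula, moment 0** -/
theorem main0 (hpm : p = 2 * m + 1) (h3 : 3 < p) (a z q J : R p) (hq : q = 2 * a + 1)
    (hz : z * q ^ 2 = a * (a + 1)) (hJ : 16 * J = 1) :
    2 * q ^ (m + p) * ∑ k ∈ range p, ((((4 * k).choose (2 * k) * (2 * k).choose k : ℕ) : R p) * (z * J) ^ k) =
      3 * q ^ p * D0 p m a - (D0 p m a + 2 * a ^ p * (D0 p m a + 2 * p * T0 p m a)) := by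
  have h := extrap p hpm (fun _ => 1) z J hJ
  have h1 := trunc p m (by omega) (fun _ => 1) a z q hq hz
  have h2 := trunc p (m + p) (by omega) (fun _ => 1) a z q hq hz
  simp only [one_mul] at h h1 h2
  rw [← transf, low_sum] at h1
  rw [← transf, high_sum p hpm h3] at h2
  rw [pow_add] at h2 ⊢
  linear_combination (q ^ m * q ^ p) * h + (3 * q ^ p) * h1 - h2

/-- **main formula, moment 1** -/
theorem main1 (hpm : p = 2 * m + 1) (h3 : 3 < p) (a z q J : R p) (hq : q = 2 * a + 1)
    (hz : z * q ^ 2 = a * (a + 1)) (hJ : 16 * J = 1) :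
    2 * q ^ (m + p) * ∑ k ∈ range p, (k : R p) *
        ((((4 * k).choose (2 * k) * (2 * k).choose k : ℕ) : R p) * (z * J) ^ k) =
      3 * q ^ p * ((a + 1) * q * E0 p m a - 2 * m * (a * (a + 1)) * D0 p m a) -
      ((a + 1) * q * (E0 p m a + 2 * a ^ p * (E0 p m a + p * D0 p m a + 2 * p * U0 p m a)) -
        2 * (m + p) * (a * (a + 1)) * (D0 p m a + 2 * a ^ p * (D0 p m a + 2 * p * T0 p m a))) := by
  have h := extrap p hpm (fun k => (k : R p)) z J hJ
  have h1 := trunc p m (by omega) (fun k => (k : R p)) a z q hq hz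
  have h2 := trunc p (m + p) (by omega) (fun k => (k : R p)) a z q hq hz
  have t1 := transf_deriv m a
  have t2 := transf_deriv (m + p) a
  rw [low_sum1, low_sum] at t1
  rw [high_sum1 p hpm h3, high_sum p hpm h3] at t2
  rw [pow_add] at h2 ⊢
  rw [Nat.cast_add m p] at t2
  rw [← hq] at t1 t2 h1 h2
  linear_combination (q ^ m * q ^ p) * h + (3 * q ^ p) * h1 - h2 - (3 * q ^ p) * t1 + t2

end

end Pool.Agent.Q261.SC
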