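import Pool.Agent.Q261.SC.Refl
import Pool.Agent.Q267.CDE.TMod
import Pool.Agent.H304R2.EC.Points

/-!
# The value at `-1` for `p = 1 mod 4`, modulo `p²`
-/

namespace Pool.Agent.Q261.SC

open Finset Pool.Agent.Q267 Pool.Agent.Q267.Seven Pool.Agent.Q267.CDE Pool.Agent.Q267.Landen

section poly

open Polynomial

variable {A : Type*} [CommRing A]

theorem coeff_sub_pow (N k : ℕ) : ((1 - X : A[X]) ^ N).coeff k = (-1) ^ k * ((N.choose k : ℕ) : A) := by
  have h : (1 - X : A[X]) ^ N = ∑ i ∈ range (N + 1), C ((-1) ^ i * ((N.choose i : ℕ) : A)) * X ^ i := by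
    rw [sub_eq_add_neg, add_comm, add_pow]
    refine sum_congr rfl fun i _ => ?_
    rw [neg_pow (X : A[X]) i, C_mul, C_pow, C_neg, C_1, map_natCast]
    ring
  rw [h, finset_sum_coeff]
  simp only [coeff_C_mul_X_pow]
  rw [sum_ite_eq]
  split_ifs with hk
  · rfl
  · rw [Nat.choose_eq_zero_of_lt (by
      rw [mem_range] at hk
      omega)]
    simp

theorem coeff_sub_sq_pow (N n : ℕ) : ((1 - X ^ 2 : A[X]) ^ N).coeff (2 * n) =
    (-1) ^ n * ((N.choose n : ℕ) : A) := by
  have h : (1 - X ^ 2 : A[X]) ^ N = ∑ i ∈ range (N + 1), C ((-1) ^ i * ((N.choose i : ℕ) : A)) * X ^ (2 * i) := by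
    rw [sub_eq_add_neg, add_comm, add_pow]
    refine sum_congr rfl fun i _ => ?_
    rw [neg_pow (X ^ 2 : A[X]) i, C_mul, C_pow, C_neg, C_1, map_natCast, ← pow_mul]
    ring
  rw [h, finset_sum_coeff]
  simp only [coeff_C_mul_X_pow]
  have e : ∀ i, (if 2 * n = 2 * i then (-1) ^ i * ((N.choose i : ℕ) : A) else 0) =
      if n = i then (-1) ^ i * ((N.choose i : ℕ) : A) else 0 := by
    intro i
    congr 1
    simp
  rw [sum_congr rfl fun i _ => e i, sum_ite_eq]
  split_ifs with hk
  · rfl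
  · rw [Nat.choose_eq_zero_of_lt (by
      rw [mem_range] at hk
      omega)]
    simp

theorem alt_sum (N n : ℕ) : ∑ k ∈ range (2 * n + 1), (-1) ^ k * ((N.choose k : ℕ) : A) *
    ((N.choose (2 * n - k) : ℕ) : A) = (-1) ^ n * ((N.choose n : ℕ) : A) := by
  have h : ((1 - X : A[X]) ^ N * (1 + X) ^ N).coeff (2 * n) = (-1) ^ n * ((N.choose n : ℕ) : A) := by
    rw [← mul_pow, show ((1 - X) * (1 + X) : A[X]) = 1 - X ^ 2 by ring, coeff_sub_sq_pow]
  rw [coeff_mul, Nat.sum_antidiagonal_eq_sum_range_succ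
    (fun i j => ((1 - X : A[X]) ^ N).coeff i * ((1 + X : A[X]) ^ N).coeff j)] at h
  rw [← h]
  refine sum_congr rfl fun k _ => ?_
  rw [coeff_sub_pow, coeff_one_add_X_pow]

end poly

section

variable (p : ℕ) [hp : Fact p.Prime] {m : ℕ}

/-- `C(2k,k)/4^k = (-1)^k C((p²-1)/2, k)` -/
theorem cb_N (N : ℕ) (hN : p ^ 2 = 2 * N + 1) (J : R p) (hJ : 4 * J = 1) (k : ℕ) (hk : k < p) :
    (k.centralBinom : R p) * J ^ k = (-1) ^ k * ((N.choose k : ℕ) : R p) := by
  have hP : (2 : R p) * N + 1 = 0 := by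
    have := congrArg (Nat.cast : ℕ → R p) hN
    rw [ZMod.natCast_self] at this
    push_cast at this
    exact this.symm
  have hkN : ∀ i, i < p → i ≤ N := by
    intro i hi
    have : p ≤ p ^ 2 := by nlinarith
    have h2 := hp.out.two_le
    nlinarith
  induction k with
  | zero => simp
  | succ k ih =>
    have ih := ih (by omega)
    have h1 := Nat.succ_mul_centralBinom_succ k
    have h1' := congrArg (Nat.cast : ℕ → R p) h1
    have h2 := Nat.choose_succ_right_eq N k
    have h2' := congrArg (Nat.cast : ℕ → R p) h2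
    rw [Nat.cast_mul, Nat.cast_mul, Nat.cast_sub (hkN k (by omega))] at h2'
    push_cast at h1' h2'
    have hk0 := isUnit_nat p (k + 1) (by omega) hk
    have h2u : IsUnit (2 : R p) := IsUnit.of_mul_eq_one (2 * J) (by linear_combination hJ)
    apply (hk0.mul h2u).mul_left_cancel
    rw [pow_succ J, pow_succ (-1 : R p)]
    push_cast
    linear_combination (2 * J ^ k * J) * h1' + (4 * (2 * (k : R p) + 1) * J) * ih
      + ((2 * (k : R p) + 1) * (-1) ^ k * (N.choose k : R p)) * hJ
      + (2 * (-1) ^ k) * h2' + ((-1) ^ k * (N.choose k : R p)) * hP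

/-- the value at `-1` -/
theorem D_val (n : ℕ) (hpn : p = 2 * (2 * n) + 1) (h3 : 3 < p) (J : R p) (hJ : 4 * J = 1) :
    D0 p (2 * n) 1 = (n.centralBinom : R p) * J ^ n := by
  have h2u : IsUnit (2 : R p) := IsUnit.of_mul_eq_one (2 * J) (by linear_combination hJ)
  apply h2u.mul_left_cancel
  obtain ⟨N, hN⟩ : ∃ N, p ^ 2 = 2 * N + 1 := by
    refine ⟨8 * n ^ 2 + 4 * n, ?_⟩
    rw [hpn]; ring
  have h1 : 2 * D0 p (2 * n) 1 = ∑ k ∈ range (2 * n + 1), (-1) ^ k *
      ((dl (2 * n) k : R p) + (dl (2 * n) (2 * n - k) : R p)) := by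
    have e1 : D0 p (2 * n) 1 = ∑ k ∈ range (2 * n + 1), (-1) ^ k * (dl (2 * n) k : R p) := by
      unfold D0
      exact sum_congr rfl fun k _ => by ring
    have e2 : D0 p (2 * n) 1 = ∑ k ∈ range (2 * n + 1), (-1) ^ k * (dl (2 * n) (2 * n - k) : R p) := by
      unfold D0
      rw [← sum_range_reflect]
      refine sum_congr rfl fun k hk => ?_
      rw [mem_range] at hk
      rw [show 2 * n + 1 - 1 - k = 2 * n - k by omega]
      have hs : ((-1 : R p)) ^ (2 * n - k) = (-1) ^ k := by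
        have e : ((-1 : R p)) ^ (2 * n - k) * (-1) ^ k = 1 := by
          rw [← pow_add, show 2 * n - k + k = 2 * n by omega, pow_mul]
          norm_num
        have : ((-1 : R p)) ^ k * (-1) ^ k = 1 := by rw [← mul_pow]; norm_num
        linear_combination ((-1) ^ k) * e - ((-1) ^ (2 * n - k)) * this
      rw [hs]
      ring
    rw [two_mul]
    conv_lhs => rw [e1]
    conv_lhs =>
      enter [2]
      rw [← e1, e2]
    rw [← sum_add_distrib]
    exact sum_congr rfl fun k _ => by ring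
  rw [h1]
  have h2 : ∀ k ∈ range (2 * n + 1), (-1) ^ k *
      ((dl (2 * n) k : R p) + (dl (2 * n) (2 * n - k) : R p)) =
      2 * ((-1) ^ k * ((N.choose k : ℕ) : R p) * ((N.choose (2 * n - k) : ℕ) : R p)) := by
    intro k hk
    rw [mem_range] at hk
    have hu := uu p hpn h3 J hJ k (by omega)
    rw [cb_N p N hN J hJ k (by omega), cb_N p N hN J hJ (2 * n - k) (by omega)] at hu
    have hs : ((-1 : R p)) ^ (2 * n) = 1 := by rw [pow_mul]; norm_num
    have hs2 : ((-1 : R p)) ^ k * (-1) ^ (2 * n - k) = 1 := by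
      rw [← pow_add, show k + (2 * n - k) = 2 * n by omega, hs]
    rw [hs, one_mul] at hu
    linear_combination (-(-1) ^ k) * hu + (2 * (-1) ^ k * ((N.choose k : ℕ) : R p) *
      ((N.choose (2 * n - k) : ℕ) : R p)) * hs2
  rw [sum_congr rfl h2, ← mul_sum, alt_sum, cb_N p N hN J hJ n (by omega)]

omit hp in
theorem odd_prod (n : ℕ) : (∏ i ∈ range n, (2 * (i : R p) + 1)) * (2 ^ n * (n.factorial : R p)) =
    ((2 * n).factorial : R p) := by
  induction n with
  | zero => simp
  | succ n ih =>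
    rw [prod_range_succ, show 2 * (n + 1) = 2 * n + 1 + 1 by ring, Nat.factorial_succ,
      Nat.factorial_succ, Nat.factorial_succ, pow_succ (2 : R p)]
    push_cast
    rw [← ih]
    ring

omit hp in
theorem up_prod (n : ℕ) : (∏ i ∈ range n, ((n : R p) + i + 1)) * (n.factorial : R p) =
    ((2 * n).factorial : R p) := by
  have h : ∀ k, (∏ i ∈ range k, ((n : R p) + i + 1)) * (n.factorial : R p) = ((n + k).factorial : R p) := by
    intro k
    induction k with
    | zero => simp
    | succ k ih =>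
      rw [prod_range_succ, ← add_assoc, Nat.factorial_succ]
      push_cast
      rw [← ih]
      ring
  rw [h, two_mul]

theorem pow_four (n : ℕ) (hpn : p = 2 * (2 * n) + 1) (h : R p)
    (hh : 2 * CDE.red p h = -(H (ZMod p) (2 * n) - H (ZMod p) n)) :
    (4 : R p) ^ n * (1 + p * h) = (-1) ^ n := by
  have h2p := hp.out.two_le
  have hP : (p : R p) = 4 * n + 1 := by
    have := congrArg (Nat.cast : ℕ → R p) hpn
    push_cast at this
    rw [this]; ring
  have h20 : (2 : ZMod p) ≠ 0 := by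
    have := CDE.cast_ne p 2 (by omega) (by omega)
    exact_mod_cast this
  have r2 : ∀ i ∈ range n, CDE.red p (2 * ((n : R p) + i + 1)) ≠ 0 := by
    intro i hi
    rw [mem_range] at hi
    have := CDE.cast_ne p (n + i + 1) (by omega) (by omega)
    push_cast at this
    rw [map_mul, map_add, map_add, map_one, red_nat, red_nat, map_ofNat]
    exact mul_ne_zero h20 this
  have p2 := prod_shift p (range n) (fun i : ℕ => 2 * ((n : R p) + i + 1)) r2
  have q2 : ∏ i ∈ range n, (2 * ((n : R p) + i + 1) - p) = (-1) ^ n * ∏ i ∈ range n, (2 * (i : R p) + 1) := by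
    have : ∏ i ∈ range n, (2 * ((n : R p) + i + 1) - p) = ∏ i ∈ range n, -(2 * (i : R p) + 1) := by
      rw [← prod_range_reflect]
      refine prod_congr rfl fun i hi => ?_
      rw [mem_range] at hi
      obtain ⟨j, rfl⟩ : ∃ j, n = j + i + 1 := ⟨n - 1 - i, by omega⟩
      rw [show j + i + 1 - 1 - i = j by omega, hP]
      push_cast
      ring
    rw [this, prod_neg, card_range]
  rw [q2] at p2
  have e1 : ∏ i ∈ range n, (2 * ((n : R p) + i + 1)) = 2 ^ n * ∏ i ∈ range n, ((n : R p) + i + 1) := by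
    rw [prod_mul_distrib, prod_const, card_range]
  rw [e1] at p2
  set Z := ∑ i ∈ range n, lift p ((CDE.red p (2 * ((n : R p) + i + 1)))⁻¹)
  have hf : IsUnit ((2 * n).factorial : R p) := fact_unit p (2 * n) (by omega)
  have key : (4 : R p) ^ n * (1 - p * Z) = (-1) ^ n := by
    apply hf.mul_right_cancel
    have o := odd_prod p n
    have u := up_prod p n
    have e4 : (4 : R p) ^ n = 2 ^ n * 2 ^ n := by rw [← mul_pow]; norm_num
    rw [e4]
    calc (2 : R p) ^ n * 2 ^ n * (1 - p * Z) * ((2 * n).factorial : R p) =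
        2 ^ n * 2 ^ n * (1 - p * Z) * ((∏ i ∈ range n, ((n : R p) + i + 1)) * (n.factorial : R p)) := by
          rw [u]
      _ = (2 ^ n * (∏ i ∈ range n, ((n : R p) + i + 1)) * (1 - p * Z)) * (2 ^ n * (n.factorial : R p)) := by
          ring
      _ = (-1) ^ n * ((∏ i ∈ range n, (2 * (i : R p) + 1)) * (2 ^ n * (n.factorial : R p))) := by
          rw [p2]; ring
      _ = _ := by rw [o]
  have hZ : (p : R p) * h = p * (-Z) := by
    apply CDE.p_mul_eq
    apply mul_left_cancel₀ h20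
    rw [hh, map_neg, map_sum]
    have f2 : 2 * ∑ x ∈ range n, CDE.red p (lift p ((CDE.red p (2 * ((n : R p) + x + 1)))⁻¹)) =
        ∑ x ∈ range n, (((n + x : ℕ) : ZMod p) + 1)⁻¹ := by
      rw [mul_sum]
      refine sum_congr rfl fun x hx => ?_
      rw [red_lift, map_mul, map_add, map_add, map_one, red_nat, red_nat, map_ofNat, mul_inv]
      have e9 : (2 : ZMod p) * 2⁻¹ = 1 := mul_inv_cancel₀ h20
      push_cast
      linear_combination ((n : ZMod p) + x + 1)⁻¹ * e9
    have f4 : H (ZMod p) (2 * n) = H (ZMod p) n + ∑ x ∈ range n, (((n + x : ℕ) : ZMod p) + 1)⁻¹ := by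
      unfold H
      rw [two_mul, sum_range_add]
    rw [f4]
    linear_combination f2
  rw [hZ]
  linear_combination key

/-- the Jacobi sum is minus the value at `-1` -/
theorem jac_val (n : ℕ) (hn : 0 < n) (hpn : p = 2 * (2 * n) + 1) (h3 : 3 < p) :
    ∑ t : ZMod p, om p t ^ (p - 1 - n) * om p (1 - t) ^ (2 * n) = - D0 p (2 * n) 1 := by
  have hodd : Odd p := ⟨2 * n, hpn⟩
  set h : R p := lift p (((2 * n : ℕ) : ZMod p) * H (ZMod p) (2 * n) -
    (((2 * n : ℕ) : ZMod p) - n) * H (ZMod p) (2 * n - n) - n * H (ZMod p) n) with hd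
  have hr : CDE.red p h = (((2 * n : ℕ) : ZMod p) * H (ZMod p) (2 * n) -
    (((2 * n : ℕ) : ZMod p) - n) * H (ZMod p) (2 * n - n) - n * H (ZMod p) n) := red_lift p _
  rw [jac p hodd n (2 * n) hn (by omega) (by omega) h hr]
  have hm' : (4 : ZMod p) * n + 1 = 0 := by
    have h0 : ((p : ℕ) : ZMod p) = 0 := CharP.cast_eq_zero _ p
    have h1 := congrArg (Nat.cast : ℕ → ZMod p) hpn
    rw [h0] at h1
    push_cast at h1
    linear_combination -h1
  have h4 := pow_four p n hpn h (by
    rw [hr, show 2 * n - n = n by omega]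
    push_cast
    linear_combination (H (ZMod p) (2 * n) - H (ZMod p) n) * hm')
  obtain ⟨J, hJ⟩ : ∃ J : R p, 4 * J = 1 := by
    have hu : IsUnit (4 : R p) := by
      have := isUnit_nat p 4 (by omega) (by omega)
      exact_mod_cast this
    exact ⟨4⁻¹, mul_inv_R p hu⟩
  rw [D_val p n hpn h3 J hJ]
  have h5 : (4 : R p) ^ n * J ^ n = 1 := by rw [← mul_pow, hJ, one_pow]
  have h6 : ((-1 : R p)) ^ n * (-1) ^ n = 1 := by rw [← mul_pow]; norm_num
  have h7 : (1 + p * h) = (-1) ^ n * J ^ n := by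
    linear_combination J ^ n * h4 - (1 + p * h) * h5
  rw [h7, Nat.centralBinom]
  linear_combination (-((2 * n).choose n : R p) * J ^ n) * h6

end

end Pool.Agent.Q261.SC
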