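import Pool.Agent.Q261.SC.Gauss

/-!
# Gauss: the value at `-1` in terms of `p = x² + y²`, modulo `p²`
-/

namespace Pool.Agent.Q261.SC

open Finset Pool.Agent.Q267 Pool.Agent.Q267.Seven Pool.Agent.Q267.CDE Pool.Agent.Q267.Landen
open Pool.Agent.H304R2.EC.Pts

section

variable (p : ℕ) [hp : Fact p.Prime]

theorem qc_om (n : ℕ) (hn : 0 < n) (hpn : p = 2 * (2 * n) + 1) (t : ZMod p) :
    ((qc p t : ℤ) : R p) = om p t ^ (2 * n) := by
  have h2 : p ≠ 2 := by omega
  by_cases ht : t = 0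
  · subst ht
    rw [om_zero, zero_pow (by omega)]
    simp
  · have h1 : ((quadraticChar (ZMod p) t : ℤ) : ZMod p) = t ^ (Fintype.card (ZMod p) / 2) :=
      quadraticChar_eq_pow_of_char_ne_two' (rc h2) t
    rw [ZMod.card, show p / 2 = 2 * n by omega] at h1
    have h3 := quadraticChar_dichotomy ht
    rw [← om_pow, ← h1]
    rcases h3 with h3 | h3
    · have : qc p t = 1 := h3
      rw [this]
      push_cast
      rw [om_one]
    · have : qc p t = -1 := h3
      rw [this]
      push_cast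
      have hodd : Odd p := ⟨2 * n, hpn⟩
      rw [om_neg p hodd, om_one]

theorem sum_sq (h2 : p ≠ 2) (c : ZMod p) (hc : c ≠ 0) (F : ZMod p → R p) :
    ∑ s : ZMod p, F (c * s ^ 2) = ∑ t : ZMod p, (1 + ((qc p c : ℤ) : R p) * ((qc p t : ℤ) : R p)) * F t := by
  have h1 : ∑ s : ZMod p, F (c * s ^ 2) = ∑ t : ZMod p, ∑ s : ZMod p, if c * s ^ 2 = t then F t else 0 := by
    rw [sum_comm]
    refine sum_congr rfl fun s _ => ?_
    rw [sum_ite_eq, if_pos (mem_univ _)]
  rw [h1]
  refine sum_congr rfl fun t _ => ?_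
  rw [← sum_filter, sum_const, nsmul_eq_mul]
  congr 1
  have h3 := quadraticChar_card_sqrts (rc h2) (c⁻¹ * t)
  have h4 : (univ.filter fun s : ZMod p => c * s ^ 2 = t) = {x : ZMod p | x ^ 2 = c⁻¹ * t}.toFinset := by
    ext s
    simp only [mem_filter, mem_univ, true_and, Set.mem_toFinset, Set.mem_ofPred_eq]
    constructor
    · intro h
      rw [← h, ← mul_assoc, inv_mul_cancel₀ hc, one_mul]
    · intro h
      rw [h, ← mul_assoc, mul_inv_cancel₀ hc, one_mul]
  rw [h4]
  have h5 : (({x : ZMod p | x ^ 2 = c⁻¹ * t}.toFinset.card : ℤ) : R p) =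
      (((quadraticChar (ZMod p) (c⁻¹ * t) + 1 : ℤ)) : R p) := by rw [h3]
  have h6 : qc p c⁻¹ = qc p c := by
    have e : c⁻¹ = (c⁻¹) ^ 2 * c := by
      rw [sq, mul_assoc, inv_mul_cancel₀ hc, mul_one]
    conv_lhs => rw [e]
    rw [map_mul, qc_sq (inv_ne_zero hc), one_mul]
  push_cast at h5
  rw [h5, map_mul]
  have h7 : quadraticChar (ZMod p) c⁻¹ = quadraticChar (ZMod p) c := h6
  rw [h7]
  push_cast
  ring

/-- the two Jacobi sums -/
noncomputable def JJ (n e : ℕ) : R p := ∑ t : ZMod p, om p t ^ e * om p (1 - t) ^ (2 * n)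

theorem JJ_add (n : ℕ) (hn : 0 < n) (hpn : p = 2 * (2 * n) + 1) (h1 : qc p (-1) = 1) :
    JJ p n n + JJ p n (3 * n) = ((SS (1 : ZMod p) : ℤ) : R p) := by
  have h2 : p ≠ 2 := by omega
  have h := sum_sq p h2 1 one_ne_zero (fun t => om p t ^ n * om p (1 - t) ^ (2 * n))
  have e1 : JJ p n n + JJ p n (3 * n) = ∑ t : ZMod p, (1 + ((qc p (1 : ZMod p) : ℤ) : R p) *
      ((qc p t : ℤ) : R p)) * (om p t ^ n * om p (1 - t) ^ (2 * n)) := by
    unfold JJ
    rw [← sum_add_distrib]
    refine sum_congr rfl fun t _ => ?_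
    rw [qc_om p n hn hpn t, map_one]
    push_cast
    ring
  rw [e1, ← h]
  unfold SS
  push_cast
  refine sum_congr rfl fun s _ => ?_
  have e2 : s * (s ^ 2 - 1) = -1 * (s * (1 - 1 * s ^ 2)) := by ring
  rw [e2, one_mul, map_mul, map_mul, h1, Int.cast_mul, Int.cast_one, Int.cast_mul, one_mul,
    qc_om p n hn hpn s, qc_om p n hn hpn (1 - s ^ 2), om_pow, ← pow_mul]

theorem JJ_sub (n : ℕ) (hn : 0 < n) (hpn : p = 2 * (2 * n) + 1) (h1 : qc p (-1) = 1)
    (c : ZMod p) (hc : qc p c = -1) (hc0 : c ≠ 0) :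
    JJ p n n - JJ p n (3 * n) = - (om p c ^ n * ((SS (c⁻¹ : ZMod p) : ℤ) : R p)) := by
  have h2 : p ≠ 2 := by omega
  have h := sum_sq p h2 c hc0 (fun t => om p t ^ n * om p (1 - t) ^ (2 * n))
  have e1 : JJ p n n - JJ p n (3 * n) = ∑ t : ZMod p, (1 + ((qc p c : ℤ) : R p) *
      ((qc p t : ℤ) : R p)) * (om p t ^ n * om p (1 - t) ^ (2 * n)) := by
    unfold JJ
    rw [← sum_sub_distrib]
    refine sum_congr rfl fun t _ => ?_
    rw [qc_om p n hn hpn t, hc]
    push_cast
    ring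
  rw [e1, ← h]
  unfold SS
  push_cast
  rw [mul_sum, ← sum_neg_distrib]
  refine sum_congr rfl fun s _ => ?_
  have e2 : s * (1 - c * s ^ 2) = (-1) * (c * (s * (s ^ 2 - c⁻¹))) := by
    have : c * c⁻¹ = 1 := mul_inv_cancel₀ hc0
    linear_combination (-s) * this
  have e3 := congrArg (qc p) e2
  rw [map_mul, map_mul, h1, one_mul, map_mul, hc] at e3
  have e4 := congrArg (Int.cast : ℤ → R p) e3
  push_cast at e4
  rw [qc_om p n hn hpn s, qc_om p n hn hpn (1 - c * s ^ 2)] at e4
  rw [om_mul, om_pow]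
  have e5 : (om p c * om p s ^ 2) ^ n = om p c ^ n * om p s ^ (2 * n) := by
    rw [mul_pow, ← pow_mul]
  rw [e5]
  linear_combination (om p c ^ n) * e4

theorem JJ_mul (n : ℕ) (hn : 0 < n) (hpn : p = 2 * (2 * n) + 1) (h3 : 3 < p) :
    JJ p n n * JJ p n (3 * n) = p := by
  have h2 : p ≠ 2 := by omega
  have h1 : qc p (-1) = 1 := by
    have h5 := qc_om p n hn hpn (-1)
    have hodd : Odd p := ⟨2 * n, hpn⟩
    rw [om_neg p hodd, om_one, pow_mul, neg_one_sq, one_pow] at h5
    rcases quadraticChar_dichotomy (F := ZMod p) (a := -1) (by simp) with h6 | h6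
    · exact h6
    · exfalso
      have h7 : qc p (-1) = -1 := h6
      rw [h7] at h5
      push_cast at h5
      have h8 : (2 : R p) = 0 := by linear_combination -h5
      have h9 := congrArg (CDE.red p) h8
      rw [map_ofNat, map_zero] at h9
      have := CDE.cast_ne p 2 (by omega) (by omega)
      exact this (by exact_mod_cast h9)
  obtain ⟨c, hc⟩ := quadraticChar_exists_neg_one (rc h2)
  have hc' : qc p c = -1 := hc
  have hc0 : c ≠ 0 := by
    rintro rfl
    simp at hc'
  have hci : ¬ IsSquare (c⁻¹) := by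
    rw [← quadraticChar_neg_one_iff_not_isSquare]
    have e : c⁻¹ = (c⁻¹) ^ 2 * c := by
      rw [sq, mul_assoc, inv_mul_cancel₀ hc0, mul_one]
    rw [e, map_mul]
    have := qc_sq (p := p) (inv_ne_zero hc0)
    have h9 : quadraticChar (ZMod p) (c⁻¹ ^ 2) = 1 := this
    rw [h9, one_mul]
    exact hc
  have hj := jacobsthal h2 h1 c⁻¹ hci
  have hj' := congrArg (Int.cast : ℤ → R p) hj
  push_cast at hj'
  have ha := JJ_add p n hn hpn h1
  have hs := JJ_sub p n hn hpn h1 c hc' hc0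
  have ho : om p c ^ n * om p c ^ n = -1 := by
    rw [← pow_add, ← two_mul, ← qc_om p n hn hpn c, hc']
    norm_num
  have h4u : IsUnit (4 : R p) := by
    have := isUnit_nat p 4 (by omega) (by omega)
    exact_mod_cast this
  apply h4u.mul_left_cancel
  set A := JJ p n n
  set B := JJ p n (3 * n)
  set S1 : R p := ((SS (1 : ZMod p) : ℤ) : R p)
  set S2 : R p := ((SS (c⁻¹ : ZMod p) : ℤ) : R p)
  set o := om p c ^ n
  linear_combination (A + B + S1) * ha - (A - B - o * S2) * hs + hj' - S2 ^ 2 * ho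

omit hp in
/-- uniqueness of the representation as a sum of two squares -/
theorem sq_unique (hpp : p.Prime) {a b x y : ℤ} (h1 : (p : ℤ) = a ^ 2 + b ^ 2) (h2 : (p : ℤ) = x ^ 2 + y ^ 2)
    (ha : a % 2 = 1) (hx : x % 2 = 1) (hb : b % 2 = 0) (_hy : y % 2 = 0) : a = x ∨ a = -x := by
  have hpi : Prime (p : ℤ) := Nat.prime_iff_prime_int.1 hpp
  have hp0 : (0 : ℤ) < p := by exact_mod_cast hpp.pos
  have key : ∀ c : ℤ, c % 2 = 0 → (p : ℤ) = a ^ 2 + c ^ 2 → (p : ℤ) ∣ a * y - c * x → a ^ 2 = x ^ 2 := by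
    intro c hc hac hd
    obtain ⟨k, hk⟩ := hd
    have e : (a * x + c * y) ^ 2 + (a * y - c * x) ^ 2 = (p : ℤ) ^ 2 := by
      have : (a ^ 2 + c ^ 2) * (x ^ 2 + y ^ 2) = (p : ℤ) ^ 2 := by rw [← hac, ← h2]; ring
      linear_combination this
    rw [hk] at e
    have hk1 : k ^ 2 ≤ 1 := by
      by_contra hcon
      push Not at hcon
      have h5 : (p : ℤ) ^ 2 * 2 ≤ (p : ℤ) ^ 2 * k ^ 2 :=
        mul_le_mul_of_nonneg_left (by omega) (by positivity)
      nlinarith [sq_nonneg (a * x + c * y)]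
    have hk2 : k = 0 ∨ k ^ 2 = 1 := by
      rcases eq_or_ne k 0 with h | h
      · exact Or.inl h
      · right
        have : 0 < k ^ 2 := by positivity
        omega
    rcases hk2 with rfl | hk2
    · rw [mul_zero] at hk
      have h6 : (a * y) ^ 2 = (c * x) ^ 2 := by rw [sub_eq_zero.1 hk]
      have h7 : (p : ℤ) * (a ^ 2 - x ^ 2) = 0 := by
        have e1 : y ^ 2 = p - x ^ 2 := by linear_combination -h2
        have e2 : c ^ 2 = p - a ^ 2 := by linear_combination -hac
        rw [mul_pow, mul_pow, e1, e2] at h6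
        linear_combination h6
      rcases mul_eq_zero.1 h7 with h8 | h8
      · omega
      · linear_combination h8
    · exfalso
      have h6 : (a * x + c * y) ^ 2 = 0 := by
        have : ((p : ℤ) * k) ^ 2 = p ^ 2 := by rw [mul_pow, hk2, mul_one]
        linear_combination e - this
      have h7 : a * x + c * y = 0 := by
        exact pow_eq_zero_iff (two_ne_zero) |>.1 h6
      have h8 : (a * x + c * y) % 2 = 1 := by
        rw [Int.add_emod, Int.mul_emod, ha, hx, Int.mul_emod c, hc]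
        simp
      rw [h7] at h8
      simp at h8
  have hprod : (p : ℤ) ∣ (a * y - b * x) * (a * y + b * x) := by
    refine ⟨a ^ 2 - x ^ 2, ?_⟩
    have e1 : y ^ 2 = p - x ^ 2 := by linear_combination -h2
    have e2 : b ^ 2 = p - a ^ 2 := by linear_combination -h1
    linear_combination a ^ 2 * e1 - x ^ 2 * e2
  have hsq : a ^ 2 = x ^ 2 := by
    rcases hpi.dvd_or_dvd hprod with h | h
    · exact key b hb h1 h
    · refine key (-b) (by omega) (by rw [h1]; ring) ?_
      have : a * y - -b * x = a * y + b * x := by ring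
      rw [this]
      exact h
  exact sq_eq_sq_iff_eq_or_eq_neg.1 hsq

/-- **Gauss modulo `p²`** -/
theorem gauss_val (n : ℕ) (hn : 0 < n) (hpn : p = 2 * (2 * n) + 1) (h3 : 3 < p) (x y : ℤ)
    (hxy : (p : ℤ) = x ^ 2 + y ^ 2) (hx : x % 4 = 1) (I : R p) (hI : 2 * (x : R p) * I = 1) :
    D0 p (2 * n) 1 = (-1) ^ n * (2 * (x : R p) - p * I) := by
  have h2 : p ≠ 2 := by omega
  have hpp := hp.out
  have hpi : Prime (p : ℤ) := Nat.prime_iff_prime_int.1 hpp
  -- the integer `a`
  obtain ⟨i, hi⟩ : ∃ i : ZMod p, i ^ 2 = -1 := by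
    obtain ⟨i, hi⟩ := (ZMod.exists_sq_eq_neg_one_iff (p := p)).2 (by omega)
    exact ⟨i, by rw [hi]; ring⟩
  obtain ⟨k, hk⟩ := XX_card (p := p) h2 i hi
  have hS := SS_one (p := p) h2
  rw [hk] at hS
  have hpz : (p : ℤ) = 4 * n + 1 := by rw [hpn]; push_cast; ring
  obtain ⟨a, ha⟩ : ∃ a : ℤ, a = 2 * n - 3 - 4 * k := ⟨_, rfl⟩
  have hSa : SS (1 : ZMod p) = -2 * a := by
    rw [hS, ha, hpz]; push_cast; ring
  -- the relation with `b`
  have h1 : qc p (-1) = 1 := by
    rw [← hi]
    exact qc_sq (by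
      rintro rfl
      simp at hi)
  obtain ⟨c, hc⟩ := quadraticChar_exists_neg_one (rc h2)
  have hc0 : c ≠ 0 := by
    rintro rfl
    simp at hc
  have hj := jacobsthal h2 h1 c (quadraticChar_neg_one_iff_not_isSquare.1 hc)
  rw [hSa] at hj
  have hbe : (2 : ℤ) ∣ SS c := by
    have : (2 : ℤ) ∣ SS c ^ 2 := ⟨2 * (p - a ^ 2), by linear_combination hj⟩
    exact Int.prime_two.dvd_of_dvd_pow this
  obtain ⟨b, hb⟩ := hbe
  rw [hb] at hj
  have hab : (p : ℤ) = a ^ 2 + b ^ 2 := by
    have : 4 * (p : ℤ) = 4 * (a ^ 2 + b ^ 2) := by linear_combination -hj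
    omega
  have hao : a % 2 = 1 := by omega
  have hxo : x % 2 = 1 := by omega
  have sq2 : ∀ z : ℤ, z % 2 = 1 → z ^ 2 % 2 = 1 := by
    intro z hz
    rw [pow_two, Int.mul_emod, hz]
    norm_num
  have even_of : ∀ z w : ℤ, (p : ℤ) = z ^ 2 + w ^ 2 → z % 2 = 1 → w % 2 = 0 := by
    intro z w h hz
    rcases Int.emod_two_eq_zero_or_one w with h5 | h5
    · exact h5
    · exfalso
      have e1 := sq2 z hz
      have e2 := sq2 w h5
      omega
  have hbo := even_of a b hab hao
  have hyo := even_of x y hxy hxo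
  have hax := sq_unique p hpp hab hxy hao hxo hbo hyo
  have hax' : a = (-1) ^ n * x := by
    rcases Nat.even_or_odd n with hne | hne
    · rw [hne.neg_one_pow, one_mul]
      obtain ⟨j, hj⟩ := hne
      rcases hax with h | h
      · exact h
      · exfalso; omega
    · rw [hne.neg_one_pow]
      obtain ⟨j, hj⟩ := hne
      rcases hax with h | h
      · exfalso; omega
      · rw [h]; ring
  -- the Jacobi sums
  have hA := jac_val p n hn hpn h3
  rw [show p - 1 - n = 3 * n by omega] at hA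
  have hJ : JJ p n (3 * n) = - D0 p (2 * n) 1 := hA
  have hadd := JJ_add p n hn hpn h1
  have hmul := JJ_mul p n hn hpn h3
  rw [hJ, hSa] at hadd
  rw [hJ] at hmul
  push_cast at hadd
  set D := D0 p (2 * n) 1 with hD
  set B := JJ p n n
  -- `D` is a unit
  have hDu : CDE.red p D ≠ 0 := by
    obtain ⟨J, hJ4⟩ : ∃ J : R p, 4 * J = 1 := by
      have hu : IsUnit (4 : R p) := by
        have := isUnit_nat p 4 (by omega) (by omega)
        exact_mod_cast this
      exact ⟨4⁻¹, mul_inv_R p hu⟩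
    rw [hD, D_val p n hpn h3 J hJ4, map_mul, map_pow, red_nat]
    have hJr : (4 : ZMod p) * CDE.red p J = 1 := by
      have := congrArg (CDE.red p) hJ4
      rw [map_mul, map_one, map_ofNat] at this
      exact this
    refine mul_ne_zero ?_ (pow_ne_zero _ (right_ne_zero_of_mul_eq_one hJr))
    rw [Ne, ZMod.natCast_eq_zero_iff, Nat.centralBinom]
    intro hd
    have h5 : (2 * n).choose n ∣ (2 * n).factorial := by
      have := Nat.choose_mul_factorial_mul_factorial (show n ≤ 2 * n by omega)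
      exact ⟨n.factorial * (2 * n - n).factorial, by rw [← this]; ring⟩
    have h6 := (hpp.dvd_factorial).1 (hd.trans h5)
    omega
  have hBr : CDE.red p B = 0 := by
    have h5 := congrArg (CDE.red p) hmul
    rw [map_mul, map_neg, red_nat, CharP.cast_eq_zero] at h5
    rcases mul_eq_zero.1 h5 with h6 | h6
    · exact h6
    · exact absurd (neg_eq_zero.1 h6) hDu
  obtain ⟨w, hw⟩ := red_eq_of p B 0 (by rw [hBr, map_zero])
  rw [zero_add] at hw
  have hsq := CDE.p_sq p
  have hs : ((-1 : R p)) ^ n * (-1) ^ n = 1 := by rw [← mul_pow]; norm_num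
  have haR : (a : R p) = (-1) ^ n * x := by rw [hax']; push_cast; ring
  rw [haR, hw] at hadd
  rw [hw] at hmul
  -- `D = 2a + B`
  have hDe : D = 2 * ((-1) ^ n * x) + p * w := by linear_combination -hadd
  have hpw : (p : R p) * w = - ((-1) ^ n * (p * I)) := by
    rw [hDe] at hmul
    have h5 : (p : R p) * w * (2 * ((-1) ^ n * x)) = -p := by
      linear_combination -hmul - w ^ 2 * hsq
    linear_combination ((-1) ^ n * I) * h5 - (p * w * (2 * x * I)) * hs - (p * w) * hI
  rw [hDe, hpw]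
  ring

end

end Pool.Agent.Q261.SC
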