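import Pool.Agent.Q261.SC.Gauss2

/-!
# The sums with denominator `72^k` modulo `p²`
-/

namespace Pool.Agent.Q261.SC

open Finset Pool.Agent.Q267 Pool.Agent.Q267.Seven Pool.Agent.Q267.CDE Pool.Agent.Q267.Landen

section poly

open Polynomial

variable {A : Type*} [CommRing A]

theorem coeff_sub_sq_pow_odd (N n : ℕ) : ((1 - X ^ 2 : A[X]) ^ N).coeff (2 * n + 1) = 0 := by
  have h : (1 - X ^ 2 : A[X]) ^ N = ∑ i ∈ range (N + 1), C ((-1) ^ i * ((N.choose i : ℕ) : A)) * X ^ (2 * i) := by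
    rw [sub_eq_add_neg, add_comm, add_pow]
    refine sum_congr rfl fun i _ => ?_
    rw [neg_pow (X ^ 2 : A[X]) i, C_mul, C_pow, C_neg, C_1, map_natCast, ← pow_mul]
    ring
  rw [h, finset_sum_coeff]
  refine sum_eq_zero fun i _ => ?_
  rw [coeff_C_mul_X_pow, if_neg (by omega)]

theorem X_odd (j : ℕ) : ∑ k ∈ range (2 * j + 1 + 1), (k : A) * ((-1) ^ k *
    (((2 * j + 1).choose k : ℕ) : A) ^ 2) = - ((2 * j + 1 : ℕ) : A) * ((-1) ^ j * (((2 * j).choose j : ℕ) : A)) := by
  have h : ((1 - X : A[X]) ^ (2 * j + 1) * (1 + X) ^ (2 * j)).coeff (2 * j + 1) =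
      - ((-1) ^ j * (((2 * j).choose j : ℕ) : A)) := by
    have e : (1 - X : A[X]) ^ (2 * j + 1) * (1 + X) ^ (2 * j) =
        (1 - X ^ 2) ^ (2 * j) - (1 - X ^ 2) ^ (2 * j) * X := by
      have : (1 - X ^ 2 : A[X]) = (1 - X) * (1 + X) := by ring
      rw [this, mul_pow, pow_succ]
      ring
    rw [e, coeff_sub, coeff_sub_sq_pow_odd, coeff_mul_X, coeff_sub_sq_pow]
    ring
  rw [coeff_mul, Nat.sum_antidiagonal_eq_sum_range_succ
    (fun i j' => ((1 - X : A[X]) ^ (2 * j + 1)).coeff i * ((1 + X : A[X]) ^ (2 * j)).coeff j')] at h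
  have h2 : ∑ k ∈ range (2 * j + 1 + 1), (k : A) * ((-1) ^ k * (((2 * j + 1).choose k : ℕ) : A) ^ 2) =
      ((2 * j + 1 : ℕ) : A) * ∑ k ∈ range (2 * j + 1 + 1),
        ((1 - X : A[X]) ^ (2 * j + 1)).coeff k * ((1 + X : A[X]) ^ (2 * j)).coeff (2 * j + 1 - k) := by
    rw [mul_sum]
    refine sum_congr rfl fun k hk => ?_
    rw [mem_range] at hk
    rw [coeff_sub_pow, coeff_one_add_X_pow]
    have h3 : k * (2 * j + 1).choose k = (2 * j + 1) * (2 * j).choose (2 * j + 1 - k) := by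
      rcases k with _ | k
      · rw [zero_mul, Nat.sub_zero, Nat.choose_eq_zero_of_lt (by omega), mul_zero]
      · have h4 := Nat.add_one_mul_choose_eq (2 * j) k
        have h5 : (2 * j).choose (2 * j + 1 - (k + 1)) = (2 * j).choose k := by
          rw [show 2 * j + 1 - (k + 1) = 2 * j - k by omega]
          exact Nat.choose_symm (by omega)
        rw [h5, h4]
        ring
    have h3' := congrArg (Nat.cast : ℕ → A) h3
    rw [Nat.cast_mul, Nat.cast_mul] at h3'
    linear_combination ((-1) ^ k * (((2 * j + 1).choose k : ℕ) : A)) * h3'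
  rw [h2, h]
  ring

end poly

section

variable (p : ℕ) [hp : Fact p.Prime]

/-- the sums -/
noncomputable def SA (c : R p) : R p :=
  ∑ k ∈ range p, ((((4 * k).choose (2 * k) * (2 * k).choose k : ℕ) : R p) * c ^ k)

noncomputable def SB (c : R p) : R p :=
  ∑ k ∈ range p, (k : R p) * ((((4 * k).choose (2 * k) * (2 * k).choose k : ℕ) : R p) * c ^ k)

theorem kappa {m : ℕ} (e : ℤ) (he : e * e = 1)
    (hr : ((3 : ZMod p)) ^ m = (e : ZMod p)) :
    ∃ v : R p, (3 : R p) ^ m = e * (1 + p * v) := by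
  have h1 : CDE.red p ((e : R p) * 3 ^ m) = CDE.red p 1 := by
    rw [map_mul, map_pow, map_ofNat, red_int, hr, map_one, ← Int.cast_mul, he, Int.cast_one]
  obtain ⟨v, hv⟩ := red_eq_of p _ _ h1
  refine ⟨v, ?_⟩
  have he' : (e : R p) * e = 1 := by rw [← Int.cast_mul, he, Int.cast_one]
  linear_combination (e : R p) * hv - (3 : R p) ^ m * he'

theorem red_of_pmul (x : R p) (h : (p : R p) * x = 0) : CDE.red p x = 0 := by
  obtain ⟨n, hn⟩ : ∃ n : ℤ, (n : R p) = x := ZMod.intCast_surjective _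
  subst hn
  rw [red_int, ZMod.intCast_zmod_eq_zero_iff_dvd]
  have h1 : (((p : ℤ) * n : ℤ) : R p) = 0 := by push_cast; exact h
  rw [ZMod.intCast_zmod_eq_zero_iff_dvd] at h1
  push_cast at h1
  have hp0 : (p : ℤ) ≠ 0 := by exact_mod_cast hp.out.ne_zero
  rw [pow_two] at h1
  exact Int.dvd_of_mul_dvd_mul_left hp0 h1

omit hp in
theorem pow_p_three {m : ℕ} (hpm : p = 2 * m + 1) (e : ℤ) (he : e * e = 1) (v : R p)
    (hv : (3 : R p) ^ m = e * (1 + p * v)) : (3 : R p) ^ p = 3 * (1 + p * v) ^ 2 := by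
  have he' : (e : R p) * e = 1 := by rw [← Int.cast_mul, he, Int.cast_one]
  have h1 : (3 : R p) ^ p = 3 ^ (2 * m + 1) := congrArg (fun k => (3 : R p) ^ k) hpm
  rw [h1, pow_succ, mul_comm 2 m, pow_mul, hv]
  linear_combination (3 * (1 + p * v) ^ 2) * he'

/-- `p = 1 mod 4` -/
theorem case_one (n : ℕ) (hpn : p = 2 * (2 * n) + 1) (h3 : 3 < p) (e : ℤ) (he : e * e = 1)
    (hr : ((3 : ZMod p)) ^ (2 * n) = (e : ZMod p)) (c : R p) (hc : 72 * c = 1)
    (I : R p) (hI : D0 p (2 * n) 1 * I = 1) :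
    SA p c = e * D0 p (2 * n) 1 ∧ 2 * (SA p c - SB p c) = e * (D0 p (2 * n) 1 + p * I) := by
  obtain ⟨v, hv⟩ := kappa p e he hr
  obtain ⟨J, hJ⟩ : ∃ J : R p, 16 * J = 1 := ⟨324 * c ^ 2, by linear_combination (72 * c + 1) * hc⟩
  obtain ⟨z, hz⟩ : ∃ z : R p, z * 3 ^ 2 = 1 * (1 + 1) := ⟨16 * c, by linear_combination 2 * hc⟩
  have hzJ : z * J = c := by
    linear_combination (-(z * J)) * hc + (8 * c * J) * hz + c * hJ
  have hpp := CDE.p_sq p
  have he' : (e : R p) * e = 1 := by rw [← Int.cast_mul, he, Int.cast_one]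
  have m0 := main0 p hpn h3 1 z 3 J (by norm_num) hz hJ
  have m1 := main1 p hpn h3 1 z 3 J (by norm_num) hz hJ
  rw [hzJ, pow_add, one_pow] at m0 m1
  have hs : ((-1 : R p)) ^ (2 * n) = 1 := by rw [pow_mul]; norm_num
  have rD := refl_D p hpn h3
  have rE := refl_E p hpn h3
  rw [hs, one_mul] at rD rE
  have hpT : (p : R p) * T0 p (2 * n) 1 = 0 := by linear_combination rD
  have h3p := pow_p_three p hpn e he v hv
  have hP : (p : R p) = 2 * (2 * n : ℕ) + 1 := by
    have := congrArg (Nat.cast : ℕ → R p) hpn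
    push_cast at this ⊢
    exact this
  -- the Wronskian
  have hU : (2 : R p) * (p * U0 p (2 * n) 1) = p * I - p * D0 p (2 * n) 1 := by
    have h5 : (p : R p) * (2 * U0 p (2 * n) 1) = p * (I - D0 p (2 * n) 1) := by
      apply CDE.p_mul_eq
      have hw := wr p hpn (-1)
      have d := red_D0 p hpn (1 : R p)
      have u := red_U0 p hpn h3 (1 : R p)
      have t := red_T0 p hpn h3 (1 : R p)
      rw [map_one] at d u t
      have ht := red_of_pmul p _ hpT
      rw [t] at ht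
      have hI' := congrArg (CDE.red p) hI
      rw [map_mul, map_one, d] at hI'
      rw [ht, zero_mul, sub_zero] at hw
      rw [map_mul, map_sub, map_ofNat, d, u]
      have h20 : (2 : ZMod p) ≠ 0 := by
        have := CDE.cast_ne p 2 (by omega) (by omega)
        exact_mod_cast this
      apply mul_left_cancel₀ h20
      linear_combination (CDE.red p I) * hw - (2 * cs (ZMod p) (2 * n) (-1) + 4 * cu (ZMod p) (2 * n) (-1)) * hI'
    linear_combination h5
  have h6u : IsUnit (6 * (1 + 3 * (p * v))) :=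
    IsUnit.of_mul_eq_one (12 * c * (1 - 3 * (p * v))) (by
      linear_combination hc - (72 * c * 9 * v ^ 2) * hpp)
  unfold SA SB
  set A := ∑ k ∈ range p, ((((4 * k).choose (2 * k) * (2 * k).choose k : ℕ) : R p) * c ^ k)
  set B := ∑ k ∈ range p, (k : R p) * ((((4 * k).choose (2 * k) * (2 * k).choose k : ℕ) : R p) * c ^ k)
  set D := D0 p (2 * n) 1
  set E := E0 p (2 * n) 1
  set U := U0 p (2 * n) 1
  set T := T0 p (2 * n) 1
  rw [h3p, hv] at m0 m1
  have hA : A = e * D := by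
    have h7 : (e : R p) * A = D := by
      apply h6u.mul_left_cancel
      linear_combination m0 + (-4) * hpT + (-18 * e * A * v ^ 2 - 6 * e * A * v ^ 3 * p + 9 * D * v ^ 2) * hpp
    linear_combination (e : R p) * h7 - A * he'
  refine ⟨hA, ?_⟩
  have hB : 2 * (e : R p) * B = D - p * I := by
    apply h6u.mul_left_cancel
    set M : R p := ((2 * n : ℕ) : R p)
    set P : R p := (p : R p)
    linear_combination 2 * m1 + (36 + 108 * P * v + 54 * P ^ 2 * v ^ 2) * rE +
      (32 * (M + P) - M * (36 + 108 * P * v + 54 * P ^ 2 * v ^ 2)) * hpT +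
      (6 * (1 + 3 * P * v) * D) * hP - 6 * hU +
      (18 * v * I - 18 * v * D - 18 * v ^ 2 * M * D + U * (108 * v + 54 * P * v ^ 2)
        - 12 * e * B * (3 * v ^ 2 + P * v ^ 3)) * hpp
  linear_combination 2 * hA - (e : R p) * hB + 2 * B * he'

theorem X_val (j : ℕ) (hpj : p = 2 * (2 * j + 1) + 1) :
    8 * cx (ZMod p) (2 * j + 1) (-1) = (-1) ^ (j + 1) * (((j + 1).centralBinom : ℕ) : ZMod p) := by
  have h0 : ((p : ℕ) : ZMod p) = 0 := CharP.cast_eq_zero _ p
  have hm : (4 : ZMod p) * j + 3 = 0 := by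
    have h1 := congrArg (Nat.cast : ℕ → ZMod p) hpj
    rw [h0] at h1
    push_cast at h1
    linear_combination -h1
  have h1 : cx (ZMod p) (2 * j + 1) (-1) = ∑ k ∈ range (2 * j + 1 + 1), (k : ZMod p) * ((-1) ^ k *
    (((2 * j + 1).choose k : ℕ) : ZMod p) ^ 2) := by
    unfold cx cc
    exact sum_congr rfl fun k _ => by ring
  have h2 := Nat.succ_mul_centralBinom_succ j
  have h2' := congrArg (Nat.cast : ℕ → ZMod p) h2
  push_cast at h2'
  rw [h1, X_odd]
  have hcb : (2 * j).choose j = j.centralBinom := rfl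
  rw [hcb]
  push_cast
  rw [pow_succ]
  linear_combination (4 * (-1) ^ j) * h2' - ((-1) ^ j * ((j + 1).centralBinom : ZMod p)) * hm

/-- `p = 3 mod 4` -/
theorem case_three (j : ℕ) (hpj : p = 2 * (2 * j + 1) + 1) (h3 : 3 < p) (e : ℤ) (he : e * e = 1)
    (hr : ((3 : ZMod p)) ^ (2 * j + 1) = (e : ZMod p)) (c : R p) (hc : 72 * c = 1) :
    3 * ((-1) ^ (j + 1) * (((j + 1).centralBinom : ℕ) : R p)) * SA p c = 2 * e * p := by
  obtain ⟨v, hv⟩ := kappa p e he hr
  obtain ⟨J, hJ⟩ : ∃ J : R p, 16 * J = 1 := ⟨324 * c ^ 2, by linear_combination (72 * c + 1) * hc⟩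
  obtain ⟨z, hz⟩ : ∃ z : R p, z * 3 ^ 2 = 1 * (1 + 1) := ⟨16 * c, by linear_combination 2 * hc⟩
  have hzJ : z * J = c := by
    linear_combination (-(z * J)) * hc + (8 * c * J) * hz + c * hJ
  have hpp := CDE.p_sq p
  have he' : (e : R p) * e = 1 := by rw [← Int.cast_mul, he, Int.cast_one]
  have m0 := main0 p hpj h3 1 z 3 J (by norm_num) hz hJ
  rw [hzJ, pow_add, one_pow] at m0
  have hs : ((-1 : R p)) ^ (2 * j + 1) = -1 := by rw [pow_succ, pow_mul]; norm_num
  have rD := refl_D p hpj h3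
  rw [hs] at rD
  have h3p := pow_p_three p hpj e he v hv
  rw [h3p, hv] at m0
  have hpD : (p : R p) * D0 p (2 * j + 1) 1 = 0 := by
    linear_combination (-(p : R p) * D0 p (2 * j + 1) 1) * hc + (36 * c * p) * rD +
      (36 * c * T0 p (2 * j + 1) 1) * hpp
  -- the Wronskian
  have hU : (p : R p) * (-2 * T0 p (2 * j + 1) 1 * ((-1) ^ (j + 1) * (((j + 1).centralBinom : ℕ) : R p))) =
      p * 8 := by
    apply CDE.p_mul_eq
    have hw := wr p hpj (-1)
    have d := red_D0 p hpj (1 : R p)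
    have t := red_T0 p hpj h3 (1 : R p)
    rw [map_one] at d t
    have hd := red_of_pmul p _ hpD
    rw [d] at hd
    rw [hd] at hw
    have hX := X_val p j hpj
    rw [map_mul, map_mul, map_mul, map_pow, map_neg, map_neg, map_one, map_ofNat, map_natCast, t, ← hX, map_ofNat]
    have h20 : (2 : ZMod p) ≠ 0 := by
      have := CDE.cast_ne p 2 (by omega) (by omega)
      exact_mod_cast this
    apply mul_left_cancel₀ h20
    linear_combination 8 * hw
  unfold SA
  set A := ∑ k ∈ range p, ((((4 * k).choose (2 * k) * (2 * k).choose k : ℕ) : R p) * c ^ k)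
  set D := D0 p (2 * j + 1) 1
  set T := T0 p (2 * j + 1) 1
  set Y : R p := (-1) ^ (j + 1) * (((j + 1).centralBinom : ℕ) : R p)
  have h6u : IsUnit (6 * (1 + 3 * (p * v))) :=
    IsUnit.of_mul_eq_one (12 * c * (1 - 3 * (p * v))) (by
      linear_combination hc - (72 * c * 9 * v ^ 2) * hpp)
  have h7 : 6 * (e * A) = - (p * T) := by
    apply h6u.mul_left_cancel
    linear_combination 6 * m0 + (-36 * e * A * v ^ 2 * 3 - 36 * e * A * v ^ 3 * p + 18 * T * v) * hpp +
      (108 * v + 54 * p * v ^ 2) * hpD + 18 * rD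
  have h12u : IsUnit (2 : R p) := IsUnit.of_mul_eq_one (36 * c) (by linear_combination hc)
  apply (h12u.mul h12u).mul_left_cancel
  linear_combination (2 * e * Y) * h7 + e * hU - 12 * A * Y * he'

end

end Pool.Agent.Q261.SC
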