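import Pool.Agent.Q267.Landen.Landen

/-!
# The Wronskian of the truncated hypergeometric equation modulo `p`

With `g = ∑ C(m,k)^2 x^k`, `h = ∑ C(m,k)^2 (H_{m-k} - H_k) x^k`, `θ = x d/dx`, `p = 2m+1`:
`(1 - x) (g^2 + 2 (g θh - h θg)) = 1 - x^p`.
-/

namespace Pool.Agent.Q261.SC

open Finset Polynomial Pool.Agent.Q267.Landen

variable {K : Type*} [Field K]

/-- the Wronskian -/
noncomputable def Wr (K : Type*) [Field K] (m : ℕ) : K[X] :=
  Ph m (cc K m) 0 (X : K[X]) 1 ^ 2 + 2 * (Ph m (cc K m) 0 (X : K[X]) 1 * Ph m (dd K m) 1 X 1 -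
    Ph m (dd K m) 0 (X : K[X]) 1 * Ph m (cc K m) 1 X 1)

theorem Wr_ode (m : ℕ) (hn : ∀ n : ℕ, 0 < n → n ≤ m → ((n : ℕ) : K) ≠ 0) :
    (1 - X) * derivative (Wr K m) = - 2 * C (m : K) * Wr K m := by
  have hX : (X : K[X]) ≠ 0 := X_ne_zero
  apply mul_left_cancel₀ hX
  have g0 := deriv_rel m (cc K m) 0 (X : K[X]) 1
  have g1 := deriv_rel m (cc K m) 1 (X : K[X]) 1
  have h0 := deriv_rel m (dd K m) 0 (X : K[X]) 1
  have h1 := deriv_rel m (dd K m) 1 (X : K[X]) 1
  have c0 := contig (K := K) m (X : K[X]) 1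
  have c1 := contig' (K := K) m hn (X : K[X]) 1
  simp only [derivative_X, derivative_one, mul_one, mul_zero, sub_zero, zero_mul, add_zero,
    one_mul, Nat.reduceAdd, zero_add] at g0 g1 h0 h1 c0 c1
  unfold Wr
  set G := Ph m (cc K m) 0 (X : K[X]) 1
  set G1 := Ph m (cc K m) 1 (X : K[X]) 1
  set G2 := Ph m (cc K m) 2 (X : K[X]) 1
  set Q := Ph m (dd K m) 0 (X : K[X]) 1
  set Q1 := Ph m (dd K m) 1 (X : K[X]) 1
  set Q2 := Ph m (dd K m) 2 (X : K[X]) 1
  simp only [derivative_add, derivative_mul, derivative_sub, derivative_pow, derivative_ofNat]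
  have e2 : (C ((2 : ℕ) : K) : K[X]) = 2 := by rw [Nat.cast_ofNat]; rfl
  rw [e2]
  simp only [Nat.reduceSub, pow_one]
  linear_combination (2 * (1 - X) * G + 2 * (1 - X) * Q1) * g0 + (-2 * (1 - X) * Q) * g1 +
    (-2 * (1 - X) * G1) * h0 + (2 * (1 - X) * G) * h1 + (-2 * Q) * c0 + (2 * G) * c1

section charp

variable (p m : ℕ) [hp : Fact p.Prime] [CharP K p]

theorem cast_ne' (j : ℕ) (h0 : 0 < j) (hj : j < p) : ((j : ℕ) : K) ≠ 0 := by
  rw [Ne, CharP.cast_eq_zero_iff K p]
  exact Nat.not_dvd_of_pos_of_lt h0 hj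

theorem Wr_deg : (Wr K m).natDegree ≤ 2 * m := by
  unfold Wr
  have h : ∀ (c : ℕ → K) (j : ℕ), (Ph m c j (X : K[X]) 1).natDegree ≤ m := by
    intro c j
    have := natDegree_Ph (K := K) (A := X) (B := 1) 1 (by rw [natDegree_X]) (by simp) m c j
    rwa [one_mul] at this
  have h2 : ∀ (c d : ℕ → K) (i j : ℕ), (Ph m c i (X : K[X]) 1 * Ph m d j (X : K[X]) 1).natDegree ≤
      2 * m := by
    intro c d i j
    refine natDegree_mul_le.trans ?_
    have := h c i
    have := h d j
    omega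
  refine (natDegree_add_le _ _).trans (max_le ?_ ?_)
  · rw [sq]
    exact h2 _ _ _ _
  · rw [show (2 : K[X]) = C 2 from rfl]
    refine (natDegree_C_mul_le _ _).trans ((natDegree_sub_le _ _).trans (max_le (h2 _ _ _ _) (h2 _ _ _ _)))

theorem Wr_zero : (Wr K m).eval 0 = 1 := by
  have h1 : ∀ c : ℕ → K, (Ph m c 1 (X : K[X]) 1).eval 0 = 0 := by
    intro c
    unfold Ph
    rw [eval_finset_sum]
    refine sum_eq_zero fun k _ => ?_
    rcases k with _ | k
    · simp
    · simp
  unfold Wr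
  simp only [eval_add, eval_mul, eval_sub, eval_pow, eval_ofNat, h1]
  rw [eval_Ph_zero _ _ _ _ _ (by simp)]
  simp [cc]

/-- **the Wronskian** -/
theorem wron (hpm : p = 2 * m + 1) : (1 - X) * Wr K m = 1 - X ^ p := by
  have hm' : (2 : K) * m + 1 = 0 := by
    have h0 : ((p : ℕ) : K) = 0 := CharP.cast_eq_zero K p
    have h1 := congrArg (Nat.cast : ℕ → K) hpm
    rw [h0] at h1
    push_cast at h1
    exact h1.symm
  have hode := Wr_ode (K := K) m (fun n h0 hn => cast_ne' p n h0 (by omega))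
  have hm2 : (2 : K[X]) * C (m : K) + 1 = 0 := by
    have := congrArg (C : K → K[X]) hm'
    rw [C_add, C_mul, C_0, C_1] at this
    exact this
  have hd : derivative ((1 - X) * Wr K m) = 0 := by
    rw [derivative_mul, derivative_sub, derivative_one, derivative_X]
    linear_combination hode - Wr K m * hm2
  have hdeg : ((1 - X) * Wr K m).natDegree ≤ p := by
    refine natDegree_mul_le.trans ?_
    have h1 := Wr_deg (K := K) m
    have h2 : ((1 - X : K[X])).natDegree ≤ 1 := by compute_degree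
    omega
  set Q := (1 - X) * Wr K m with hQ
  have hc : ∀ j, 0 < j → j < p → Q.coeff j = 0 := by
    intro j h0 hj
    obtain ⟨i, rfl⟩ : ∃ i, j = i + 1 := ⟨j - 1, by omega⟩
    have h1 := congrArg (fun q : K[X] => q.coeff i) hd
    simp only [coeff_derivative, coeff_zero] at h1
    have h2 := cast_ne' (K := K) p (i + 1) h0 hj
    push_cast at h2
    exact (mul_eq_zero.1 h1).resolve_right h2
  have hform : Q = C (Q.coeff 0) + C (Q.coeff p) * X ^ p := by
    ext j
    rw [coeff_add, coeff_C, coeff_C_mul_X_pow]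
    rcases Nat.eq_zero_or_pos j with rfl | h0
    · have := hp.out.pos
      rw [if_pos rfl, if_neg (by omega), add_zero]
    · rw [if_neg (by omega), zero_add]
      split_ifs with h
      · rw [h]
      · rcases lt_or_gt_of_ne h with h1 | h1
        · exact hc j h0 h1
        · exact coeff_eq_zero_of_natDegree_lt (by omega)
  have h0 : Q.coeff 0 = 1 := by
    rw [coeff_zero_eq_eval_zero, hQ, eval_mul, Wr_zero]
    simp
  have h1 : Q.eval 1 = 0 := by
    rw [hQ, eval_mul]
    simp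
  rw [hform, h0] at h1
  simp only [eval_add, eval_mul, eval_C, eval_pow, eval_X, one_pow, mul_one] at h1
  have h2 : Q.coeff p = -1 := by linear_combination h1
  rw [hform, h0, h2, C_1, C_neg, C_1]
  ring

theorem eval_Ph_one (c : ℕ → K) (j : ℕ) (x : K) :
    (Ph m c j (X : K[X]) 1).eval x = ∑ k ∈ range (m + 1), (k : K) ^ j * (c k * x ^ k) := by
  unfold Ph
  rw [eval_finset_sum]
  refine sum_congr rfl fun k _ => ?_
  simp only [eval_mul, eval_C, eval_pow, eval_X, eval_one, one_pow, mul_one]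
  ring

/-- the Wronskian at a point -/
theorem wron_eval (hpm : p = 2 * m + 1) (x : K) :
    (1 - x) * ((∑ k ∈ range (m + 1), cc K m k * x ^ k) ^ 2 + 2 *
      ((∑ k ∈ range (m + 1), cc K m k * x ^ k) * (∑ k ∈ range (m + 1), (k : K) * (dd K m k * x ^ k)) -
      (∑ k ∈ range (m + 1), dd K m k * x ^ k) * (∑ k ∈ range (m + 1), (k : K) * (cc K m k * x ^ k)))) =
      1 - x ^ p := by
  have h := congrArg (eval x) (wron (K := K) p m hpm)
  unfold Wr at h
  simp only [eval_add, eval_mul, eval_sub, eval_pow, eval_ofNat, eval_one, eval_X, eval_Ph_one,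
    pow_zero, one_mul, pow_one] at h
  exact h

end charp

end Pool.Agent.Q261.SC
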