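import Pool.Agent.Q261.SC.Extra
import Pool.Agent.Q261.SC.Wron

/-!
# The sums at the point `-1`
-/

namespace Pool.Agent.Q261.SC

open Finset Pool.Agent.Q267 Pool.Agent.Q267.Seven Pool.Agent.Q267.CDE Pool.Agent.Q267.Landen

section

variable (p : ℕ) [hp : Fact p.Prime] {m : ℕ}

theorem Hh_pred (h3 : 3 < p) : Hh (ZMod p) (p - 1) = 0 := by
  have h2 : Hh (ZMod p) (p - 1) = -Hh (ZMod p) (p - 1) := by
    conv_lhs => unfold Hh
    rw [← sum_range_reflect]
    unfold Hh
    rw [← sum_neg_distrib]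
    refine sum_congr rfl fun j hj => ?_
    rw [mem_range] at hj
    have e : ((p - 1 - 1 - j + 1 : ℕ) : ZMod p) = -((j + 1 : ℕ) : ZMod p) := by
      have e1 : (p - 1 - 1 - j + 1) + (j + 1) = p := by omega
      have e2 := congrArg (Nat.cast : ℕ → ZMod p) e1
      have hp0 : ((p : ℕ) : ZMod p) = 0 := CharP.cast_eq_zero _ p
      rw [Nat.cast_add (p - 1 - 1 - j + 1) (j + 1), hp0] at e2
      linear_combination e2
    rw [e, inv_neg]
  have h4 : (2 : ZMod p) ≠ 0 := by
    have := CDE.cast_ne p 2 (by omega) (by omega)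
    exact_mod_cast this
  apply mul_left_cancel₀ h4
  linear_combination h2

theorem Hh_refl (h3 : 3 < p) (n : ℕ) (hn : n ≤ p - 1) : Hh (ZMod p) (p - 1 - n) = Hh (ZMod p) n := by
  have h0 := Hh_pred p h3
  have h1 : Hh (ZMod p) (p - 1) = Hh (ZMod p) (p - 1 - n) - Hh (ZMod p) n := by
    have e : p - 1 = (p - 1 - n) + n := by omega
    conv_lhs => rw [e]
    unfold Hh
    rw [sum_range_add, sub_eq_add_neg, ← sum_neg_distrib, add_right_inj, ← sum_range_reflect]
    refine sum_congr rfl fun j hj => ?_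
    rw [mem_range] at hj
    have e : ((p - 1 - n + (n - 1 - j) + 1 : ℕ) : ZMod p) = -((j + 1 : ℕ) : ZMod p) := by
      have e1 : (p - 1 - n + (n - 1 - j) + 1) + (j + 1) = p := by omega
      have e2 := congrArg (Nat.cast : ℕ → ZMod p) e1
      have hp0 : ((p : ℕ) : ZMod p) = 0 := CharP.cast_eq_zero _ p
      rw [Nat.cast_add (p - 1 - n + (n - 1 - j) + 1) (j + 1), hp0] at e2
      linear_combination e2
    rw [e, inv_neg]
  rw [h0] at h1
  linear_combination -h1

theorem red_diff (hpm : p = 2 * m + 1) (h3 : 3 < p) (k : ℕ) (hk : k ≤ m) :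
    CDE.red p (hR p (m + k) - hR p k) = Hh (ZMod p) (m - k) - Hh (ZMod p) k := by
  have h1 : CDE.red p (hR p (m + k)) = Hh (ZMod p) (m + k) := Seven.red_hR p (m + k) (by omega)
  have h2 : CDE.red p (hR p k) = Hh (ZMod p) k := Seven.red_hR p k (by omega)
  have h4 := Hh_refl p h3 (m - k) (by omega)
  rw [show p - 1 - (m - k) = m + k by omega] at h4
  rw [map_sub, h1, h2, h4]

theorem red_dl (hpm : p = 2 * m + 1) (k : ℕ) (hk : k ≤ m) :
    CDE.red p ((dl m k : ℤ) : R p) = cc (ZMod p) m k := by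
  rw [map_intCast]
  exact dl_mod (K := ZMod p) p m hpm k hk

/-- `∑ C(m,k)^2 x^k` etc. modulo `p` -/
def cs (K : Type*) [Field K] (m : ℕ) (x : K) : K := ∑ k ∈ range (m + 1), cc K m k * x ^ k
def cx (K : Type*) [Field K] (m : ℕ) (x : K) : K := ∑ k ∈ range (m + 1), (k : K) * (cc K m k * x ^ k)
def ct (K : Type*) [Field K] (m : ℕ) (x : K) : K := ∑ k ∈ range (m + 1), dd K m k * x ^ k
def cu (K : Type*) [Field K] (m : ℕ) (x : K) : K := ∑ k ∈ range (m + 1), (k : K) * (dd K m k * x ^ k)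

theorem red_D0 (hpm : p = 2 * m + 1) (a : R p) :
    CDE.red p (D0 p m a) = cs (ZMod p) m (-(CDE.red p a)) := by
  unfold D0 cs
  rw [map_sum]
  refine sum_congr rfl fun k hk => ?_
  rw [mem_range] at hk
  rw [map_mul, red_dl p hpm k (by omega), map_pow, map_neg]

theorem red_E0 (hpm : p = 2 * m + 1) (a : R p) :
    CDE.red p (E0 p m a) = cx (ZMod p) m (-(CDE.red p a)) := by
  unfold E0 cx
  rw [map_sum]
  refine sum_congr rfl fun k hk => ?_
  rw [mem_range] at hk
  rw [map_mul, map_mul, red_dl p hpm k (by omega), map_pow, map_neg, map_natCast]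

theorem red_T0 (hpm : p = 2 * m + 1) (h3 : 3 < p) (a : R p) :
    CDE.red p (T0 p m a) = ct (ZMod p) m (-(CDE.red p a)) := by
  unfold T0 ct
  rw [map_sum]
  refine sum_congr rfl fun k hk => ?_
  rw [mem_range] at hk
  rw [map_mul, map_mul, red_dl p hpm k (by omega), map_pow, map_neg, red_diff p hpm h3 k (by omega)]
  unfold dd
  ring

theorem red_U0 (hpm : p = 2 * m + 1) (h3 : 3 < p) (a : R p) :
    CDE.red p (U0 p m a) = cu (ZMod p) m (-(CDE.red p a)) := by
  unfold U0 cu
  rw [map_sum]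
  refine sum_congr rfl fun k hk => ?_
  rw [mem_range] at hk
  rw [map_mul, map_mul, map_mul, red_dl p hpm k (by omega), map_pow, map_neg,
    red_diff p hpm h3 k (by omega), map_natCast]
  unfold dd
  ring

/-- the Wronskian relation at `-a` -/
theorem wr (hpm : p = 2 * m + 1) (x : ZMod p) :
    (1 - x) * (cs (ZMod p) m x ^ 2 + 2 * (cs (ZMod p) m x * cu (ZMod p) m x -
      ct (ZMod p) m x * cx (ZMod p) m x)) = 1 - x := by
  have h := wron_eval (K := ZMod p) p m hpm x
  rw [ZMod.pow_card] at h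
  exact h

/-- reflection of the sum at `1` -/
theorem refl_D (hpm : p = 2 * m + 1) (h3 : 3 < p) :
    D0 p m 1 = (-1) ^ m * (D0 p m 1 - p * T0 p m 1) := by
  have h1 : D0 p m 1 = ∑ k ∈ range (m + 1), (dl m (m - k) : R p) * (-1) ^ (m - k) := by
    unfold D0
    rw [← sum_range_reflect]
    refine sum_congr rfl fun k hk => ?_
    rw [show m + 1 - 1 - k = m - k by omega]
  conv_lhs => rw [h1]
  unfold D0 T0
  rw [mul_sum, ← sum_sub_distrib, mul_sum]
  refine sum_congr rfl fun k hk => ?_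
  rw [mem_range] at hk
  have hd := dl_diff p m hpm k (by omega)
  have hs : ((-1 : R p)) ^ (m - k) = (-1) ^ m * (-1) ^ k := by
    have : ((-1 : R p)) ^ k * (-1) ^ k = 1 := by rw [← mul_pow]; norm_num
    have e : ((-1 : R p)) ^ m = (-1) ^ (m - k) * (-1) ^ k := by rw [← pow_add]; congr 1; omega
    rw [e]
    linear_combination (-(-1) ^ (m - k)) * this
  have hpe : (p : R p) * (cR p m k * (hR p (m - k) - hR p k)) =
      p * ((dl m k : R p) * (hR p (m + k) - hR p k)) := by
    apply CDE.p_mul_eq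
    have h5 : CDE.red p (hR p (m - k)) = Hh (ZMod p) (m - k) := Seven.red_hR p (m - k) (by omega)
    have h6 : CDE.red p (hR p k) = Hh (ZMod p) k := Seven.red_hR p k (by omega)
    rw [map_mul, map_mul, red_dl p hpm k (by omega), red_diff p hpm h3 k (by omega), map_sub, h5, h6]
    congr 1
    unfold cR cc
    rw [map_pow, map_natCast]
  rw [hs]
  linear_combination ((-1) ^ m * (-1) ^ k) * hd - ((-1) ^ m * (-1) ^ k) * hpe

/-- reflection of the weighted sum at `1` -/
theorem refl_E (hpm : p = 2 * m + 1) (h3 : 3 < p) :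
    E0 p m 1 = (-1) ^ m * (m * D0 p m 1 - E0 p m 1 - p * (m * T0 p m 1 - U0 p m 1)) := by
  have h1 : E0 p m 1 = ∑ k ∈ range (m + 1), ((m - k : ℕ) : R p) *
      ((dl m (m - k) : R p) * (-1) ^ (m - k)) := by
    unfold E0
    rw [← sum_range_reflect]
    refine sum_congr rfl fun k hk => ?_
    rw [show m + 1 - 1 - k = m - k by omega]
  conv_lhs => rw [h1]
  unfold D0 T0 U0 E0
  rw [mul_sum, mul_sum, ← sum_sub_distrib, ← sum_sub_distrib, mul_sum, ← sum_sub_distrib, mul_sum]
  refine sum_congr rfl fun k hk => ?_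
  rw [mem_range] at hk
  have hd := dl_diff p m hpm k (by omega)
  have hs : ((-1 : R p)) ^ (m - k) = (-1) ^ m * (-1) ^ k := by
    have : ((-1 : R p)) ^ k * (-1) ^ k = 1 := by rw [← mul_pow]; norm_num
    have e : ((-1 : R p)) ^ m = (-1) ^ (m - k) * (-1) ^ k := by rw [← pow_add]; congr 1; omega
    rw [e]
    linear_combination (-(-1) ^ (m - k)) * this
  have hpe : (p : R p) * (cR p m k * (hR p (m - k) - hR p k)) =
      p * ((dl m k : R p) * (hR p (m + k) - hR p k)) := by
    apply CDE.p_mul_eq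
    have h5 : CDE.red p (hR p (m - k)) = Hh (ZMod p) (m - k) := Seven.red_hR p (m - k) (by omega)
    have h6 : CDE.red p (hR p k) = Hh (ZMod p) k := Seven.red_hR p k (by omega)
    rw [map_mul, map_mul, red_dl p hpm k (by omega), red_diff p hpm h3 k (by omega), map_sub, h5, h6]
    congr 1
    unfold cR cc
    rw [map_pow, map_natCast]
  rw [hs, Nat.cast_sub (show k ≤ m by omega)]
  linear_combination (((m : R p) - k) * ((-1) ^ m * (-1) ^ k)) * hd -
    (((m : R p) - k) * ((-1) ^ m * (-1) ^ k)) * hpe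

end

end Pool.Agent.Q261.SC
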