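import Mathlib

/-!
# A quadratic transformation, at the level of coefficients

`∑ C(m,k) C(m+k,k) a^k = ∑ C(m,2k) C(2k,k) (a (a+1))^k (2a+1)^(m-2k)`.
-/

namespace Pool.Agent.Q261.SC

open Finset Polynomial

section ring

variable {R : Type*} [CommRing R]

theorem coeff_left (m : ℕ) (a : R) :
    (((1 + X) * (1 + C a * (1 + X))) ^ m : R[X]).coeff m =
      ∑ k ∈ range (m + 1), ((m.choose k * (m + k).choose k : ℕ) : R) * a ^ k := by
  rw [mul_pow, add_comm (1 : R[X]) (C a * (1 + X)), add_pow (C a * (1 + X)) 1 m, mul_sum, finset_sum_coeff]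
  refine sum_congr rfl fun k hk => ?_
  have e : ((1 + X) ^ m * ((C a * (1 + X)) ^ k * 1 ^ (m - k) * ((m.choose k : ℕ) : R[X])) : R[X]) =
      C (a ^ k * ((m.choose k : ℕ) : R)) * (1 + X) ^ (m + k) := by
    rw [one_pow, mul_pow, C_mul, C_pow, pow_add, map_natCast]
    ring
  rw [e, coeff_C_mul, coeff_one_add_X_pow]
  have : (m + k).choose m = (m + k).choose k := by rw [Nat.choose_symm_add]
  rw [this]
  push_cast
  ring

theorem coeff_even (i : ℕ) (a b : R) :
    ((C a * X ^ 2 + C b) ^ i : R[X]).coeff i =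
      if Even i then (((i / 2 + i / 2).choose (i / 2) : ℕ) : R) * (a * b) ^ (i / 2) else 0 := by
  rw [add_pow, finset_sum_coeff]
  have e : ∀ k ∈ range (i + 1), ((C a * X ^ 2) ^ k * C b ^ (i - k) * ((i.choose k : ℕ) : R[X])).coeff i =
      if i = 2 * k then a ^ k * b ^ (i - k) * ((i.choose k : ℕ) : R) else 0 := by
    intro k _
    have : ((C a * X ^ 2) ^ k * C b ^ (i - k) * ((i.choose k : ℕ) : R[X])) =
        C (a ^ k * b ^ (i - k) * ((i.choose k : ℕ) : R)) * X ^ (2 * k) := by
      rw [mul_pow, C_mul, C_mul, C_pow, C_pow, ← pow_mul, map_natCast]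
      ring
    rw [this, coeff_C_mul_X_pow]
  rw [sum_congr rfl e]
  split_ifs with h
  · obtain ⟨j, hj⟩ := h
    have hj' : i / 2 = j := by omega
    rw [hj', sum_eq_single j]
    · rw [if_pos (by omega)]
      have h1 : i - j = j := by omega
      rw [h1, mul_pow, ← hj]
      ring
    · intro b _ hb
      rw [if_neg (by omega)]
    · intro h
      exfalso
      apply h
      rw [mem_range]
      omega
  · apply sum_eq_zero
    intro k _
    rw [if_neg]
    intro h1
    apply h
    exact ⟨k, by omega⟩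

theorem coeff_right (m : ℕ) (a : R) :
    (((1 + X) * (1 + C a * (1 + X))) ^ m : R[X]).coeff m =
      ∑ k ∈ range (m + 1), ((m.choose (2 * k) * (2 * k).choose k : ℕ) : R) *
        ((a * (a + 1)) ^ k * (2 * a + 1) ^ (m - 2 * k)) := by
  have e : ((1 + X) * (1 + C a * (1 + X)) : R[X]) =
      (C a * X ^ 2 + C (a + 1)) + C (2 * a + 1) * X := by
    rw [C_add, C_add, C_mul, C_1]
    have : (C (2 : R)) = (2 : R[X]) := rfl
    rw [this]
    ring
  rw [e, add_pow, finset_sum_coeff]
  have e2 : ∀ i ∈ range (m + 1), (((C a * X ^ 2 + C (a + 1)) ^ i * (C (2 * a + 1) * X) ^ (m - i) *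
      ((m.choose i : ℕ) : R[X]))).coeff m = if Even i then
        ((m.choose i : ℕ) : R) * ((((i / 2 + i / 2).choose (i / 2) : ℕ) : R) *
          (a * (a + 1)) ^ (i / 2)) * (2 * a + 1) ^ (m - i) else 0 := by
    intro i hi
    rw [mem_range] at hi
    have : ((C a * X ^ 2 + C (a + 1)) ^ i * (C (2 * a + 1) * X) ^ (m - i) *
      ((m.choose i : ℕ) : R[X])) = C ((2 * a + 1) ^ (m - i) * ((m.choose i : ℕ) : R)) *
        ((C a * X ^ 2 + C (a + 1)) ^ i * X ^ (m - i)) := by
      rw [mul_pow, C_mul, C_pow, map_natCast]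
      ring
    rw [this, coeff_C_mul]
    have h2 : ((C a * X ^ 2 + C (a + 1)) ^ i * X ^ (m - i) : R[X]).coeff m =
        ((C a * X ^ 2 + C (a + 1)) ^ i : R[X]).coeff i := by
      have : m = i + (m - i) := by omega
      conv_lhs => rw [this]
      rw [show i + (m - i) - i = m - i by omega, coeff_mul_X_pow]
    rw [h2, coeff_even]
    split_ifs
    · ring
    · ring
  rw [sum_congr rfl e2, ← sum_filter]
  symm
  have hz : ∑ k ∈ range (m + 1), ((m.choose (2 * k) * (2 * k).choose k : ℕ) : R) *
        ((a * (a + 1)) ^ k * (2 * a + 1) ^ (m - 2 * k)) =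
      ∑ k ∈ (range (m + 1)).filter (fun k => 2 * k ≤ m),
        ((m.choose (2 * k) * (2 * k).choose k : ℕ) : R) *
        ((a * (a + 1)) ^ k * (2 * a + 1) ^ (m - 2 * k)) := by
    rw [sum_filter]
    refine sum_congr rfl fun k _ => ?_
    split_ifs with h
    · rfl
    · rw [Nat.choose_eq_zero_of_lt (by omega)]
      simp
  rw [hz]
  refine sum_bij (fun k _ => 2 * k) ?_ ?_ ?_ ?_
  · intro k hk
    simp only [mem_filter, mem_range] at hk ⊢
    exact ⟨by omega, ⟨k, by ring⟩⟩
  · intro a _ b _ h
    simpa using h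
  · intro b hb
    simp only [mem_filter, mem_range] at hb
    obtain ⟨h1, c, hc⟩ := hb
    refine ⟨c, ?_, by omega⟩
    simp only [mem_filter, mem_range]
    omega
  · intro k hk
    have h1 : 2 * k / 2 = k := by omega
    have h2 : k + k = 2 * k := by ring
    simp only [h1, h2]
    push_cast
    ring

/-- the transformation -/
theorem transf (m : ℕ) (a : R) :
    ∑ k ∈ range (m + 1), ((m.choose k * (m + k).choose k : ℕ) : R) * a ^ k =
      ∑ k ∈ range (m + 1), ((m.choose (2 * k) * (2 * k).choose k : ℕ) : R) *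
        ((a * (a + 1)) ^ k * (2 * a + 1) ^ (m - 2 * k)) := by
  rw [← coeff_left, coeff_right]

theorem pow_deriv_aux (A : R[X]) (k : ℕ) : A * (((k : ℕ) : R[X]) * A ^ (k - 1)) = (k : R[X]) * A ^ k := by
  rcases k with _ | k
  · simp
  · simp only [Nat.add_sub_cancel]; ring

/-- the derivative of the transformation -/
theorem transf_deriv (m : ℕ) (a : R) :
    (a + 1) * (2 * a + 1) *
        ∑ k ∈ range (m + 1), (k : R) * (((m.choose k * (m + k).choose k : ℕ) : R) * a ^ k) =
      ∑ k ∈ range (m + 1), (k : R) * (((m.choose (2 * k) * (2 * k).choose k : ℕ) : R) *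
        ((a * (a + 1)) ^ k * (2 * a + 1) ^ (m - 2 * k))) +
      2 * m * (a * (a + 1)) * ∑ k ∈ range (m + 1), ((m.choose k * (m + k).choose k : ℕ) : R) * a ^ k := by
  have h0 := congrArg derivative (transf m (X : R[X]))
  rw [derivative_sum, derivative_sum] at h0
  have h1 := congrArg (fun q : R[X] => X * (X + 1) * (2 * X + 1) * q) h0
  have e1 : X * (X + 1) * (2 * X + 1) * ∑ k ∈ range (m + 1),
      derivative (((m.choose k * (m + k).choose k : ℕ) : R[X]) * X ^ k) =
      (X + 1) * (2 * X + 1) * ∑ k ∈ range (m + 1), (k : R[X]) *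
        (((m.choose k * (m + k).choose k : ℕ) : R[X]) * X ^ k) := by
    rw [mul_sum, mul_sum]
    refine sum_congr rfl fun k _ => ?_
    have := pow_deriv_aux (X : R[X]) k
    rw [derivative_mul, derivative_natCast, zero_mul, zero_add, derivative_X_pow, C_eq_natCast]
    linear_combination ((X + 1) * (2 * X + 1) * ((m.choose k * (m + k).choose k : ℕ) : R[X])) * this
  have e2 : X * (X + 1) * (2 * X + 1) * ∑ k ∈ range (m + 1),
      derivative (((m.choose (2 * k) * (2 * k).choose k : ℕ) : R[X]) *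
        ((X * (X + 1)) ^ k * (2 * X + 1) ^ (m - 2 * k))) =
      ∑ k ∈ range (m + 1), ((k : R[X]) * (((m.choose (2 * k) * (2 * k).choose k : ℕ) : R[X]) *
        ((X * (X + 1)) ^ k * (2 * X + 1) ^ (m - 2 * k))) +
      2 * (m : R[X]) * (X * (X + 1)) * (((m.choose (2 * k) * (2 * k).choose k : ℕ) : R[X]) *
        ((X * (X + 1)) ^ k * (2 * X + 1) ^ (m - 2 * k)))) := by
    rw [mul_sum]
    refine sum_congr rfl fun k _ => ?_
    rcases lt_or_ge m (2 * k) with hk | hk
    · rw [Nat.choose_eq_zero_of_lt hk]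
      simp
    · have a1 := pow_deriv_aux ((X : R[X]) * (X + 1)) k
      have a2 := pow_deriv_aux ((2 : R[X]) * X + 1) (m - 2 * k)
      rw [derivative_mul, derivative_natCast, zero_mul, zero_add, derivative_mul, derivative_pow,
        derivative_pow, C_eq_natCast, C_eq_natCast]
      have d1 : derivative ((X : R[X]) * (X + 1)) = 2 * X + 1 := by
        rw [derivative_mul, derivative_X, derivative_add, derivative_X, derivative_one]
        ring
      have d2 : derivative ((2 : R[X]) * X + 1) = 2 := by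
        rw [derivative_add, derivative_mul, derivative_X, derivative_one, derivative_ofNat]
        ring
      rw [d1, d2]
      have hc : ((m - 2 * k : ℕ) : R[X]) = (m : R[X]) - 2 * k := by
        rw [Nat.cast_sub hk]
        push_cast
        ring
      rw [hc] at a2 ⊢
      set w := ((m.choose (2 * k) * (2 * k).choose k : ℕ) : R[X])
      linear_combination (w * (2 * X + 1) ^ (m - 2 * k) * (2 * X + 1) ^ 2) * a1 +
        (w * (X * (X + 1)) ^ k * 2 * (X * (X + 1))) * a2
  rw [e1, e2, sum_add_distrib, ← mul_sum, ← transf m (X : R[X])] at h1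
  have h2 := congrArg (eval a) h1
  simp only [eval_mul, eval_add, eval_X, eval_one, eval_finset_sum, eval_pow, eval_natCast,
    eval_ofNat] at h2
  exact h2

end ring

end Pool.Agent.Q261.SC
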